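/-
Module F1: numerical asymptotics.
-/
import Mathlib

namespace Pool.Agent.Lib.TG12.Asym

open Filter

theorem pow_le_two_pow (c : ℕ) : ∀ᶠ n : ℕ in atTop, n ^ c ≤ 2 ^ n := by
  have h := tendsto_pow_const_div_const_pow_of_one_lt c (r := (2 : ℝ)) (by norm_num)
  have h1 := h.eventually (gt_mem_nhds (show (0 : ℝ) < 1 by norm_num))
  filter_upwards [h1] with n hn
  rw [div_lt_one (by positivity)] at hn
  exact_mod_cast hn.le

theorem factorial_le (n : ℕ) : (2 ^ n).factorial ≤ 2 ^ (n * 2 ^ n) := by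
  calc (2 ^ n).factorial ≤ (2 ^ n) ^ (2 ^ n) := Nat.factorial_le_pow _
    _ = 2 ^ (n * 2 ^ n) := by rw [← pow_mul]

theorem middle (n : ℕ) : 2 ^ n ≤ (n + 1) * n.choose (n / 2) := by
  rw [← Nat.sum_range_choose]
  calc ∑ m ∈ Finset.range (n + 1), n.choose m ≤ ∑ _m ∈ Finset.range (n + 1), n.choose (n / 2) :=
        Finset.sum_le_sum fun m _ => Nat.choose_le_middle m n
    _ = (n + 1) * n.choose (n / 2) := by simp

variable (s b : ℕ → ℕ)

/-- lower bound for the number of groups -/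
theorem lower (H1 : ∀ n a : ℕ, 2 ≤ n → 2 * a ≤ n.choose (n / 2) → 2 ^ (a ^ 2) ≤ s (n + 1)) :
    ∀ᶠ n : ℕ in atTop, ∃ a0 : ℕ, 2 ^ n ≤ 8 * n * a0 ∧ 2 ^ (a0 ^ 2) ≤ s n := by
  filter_upwards [pow_le_two_pow 2, eventually_ge_atTop 8] with n hn hn8
  obtain ⟨m, rfl⟩ : ∃ m, n = m + 1 := ⟨n - 1, by omega⟩
  refine ⟨m.choose (m / 2) / 2, ?_, H1 m _ (by omega) (Nat.mul_div_le _ _)⟩
  have h1 := middle m
  have h2 : m.choose (m / 2) ≤ 2 * (m.choose (m / 2) / 2) + 1 := by omega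
  have h3 : 2 ^ m ≤ (m + 1) * (2 * (m.choose (m / 2) / 2) + 1) := h1.trans (Nat.mul_le_mul_left _ h2)
  have h4 : (m + 1) * 4 ≤ 2 ^ (m + 1) := by
    refine le_trans ?_ hn
    rw [sq]
    exact Nat.mul_le_mul_left _ (by omega)
  rw [pow_succ] at *
  generalize m.choose (m / 2) / 2 = c at *
  nlinarith

/-- the growth step in clean form -/
theorem growth (H1 : ∀ n a : ℕ, 2 ≤ n → 2 * a ≤ n.choose (n / 2) → 2 ^ (a ^ 2) ≤ s (n + 1))
    (H2 : ∀ n a : ℕ, (s n - ((2 ^ n).factorial) ^ (2 * a)) * 2 ^ (a ^ 2) ≤ s (n + 1)) :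
    ∀ᶠ n : ℕ in atTop, s n * 2 ^ ((2 ^ n / n ^ 4) ^ 2) ≤ 2 * s (n + 1) := by
  filter_upwards [lower s H1, pow_le_two_pow 2, eventually_ge_atTop 256] with n ⟨a0, ha0, hs⟩ hn hn256
  set a := 2 ^ n / n ^ 4 with ha
  have ha4 : a * n ^ 4 ≤ 2 ^ n := Nat.div_mul_le_self _ _
  -- few groups with few generators
  have h1 : 2 * ((2 ^ n).factorial) ^ (2 * a) ≤ s n := by
    refine le_trans ?_ hs
    calc 2 * ((2 ^ n).factorial) ^ (2 * a) ≤ 2 * (2 ^ (n * 2 ^ n)) ^ (2 * a) :=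
          Nat.mul_le_mul_left _ (Nat.pow_le_pow_left (factorial_le n) _)
      _ = 2 ^ (n * 2 ^ n * (2 * a) + 1) := by rw [← pow_mul, pow_succ, mul_comm]
      _ ≤ 2 ^ (a0 ^ 2) := by
          apply Nat.pow_le_pow_right (by norm_num)
          -- multiply by `64 n ^ 3`
          have hn0 : 0 < n := by omega
          have e1 : (2 ^ n) ^ 2 ≤ (8 * n * a0) ^ 2 := Nat.pow_le_pow_left ha0 2
          have e2 : 64 * n ^ 3 * (n * 2 ^ n * (2 * a)) ≤ 128 * (2 ^ n) ^ 2 := by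
            calc 64 * n ^ 3 * (n * 2 ^ n * (2 * a)) = 128 * (2 ^ n) * (a * n ^ 4) := by ring
              _ ≤ 128 * (2 ^ n) * 2 ^ n := Nat.mul_le_mul_left _ ha4
              _ = 128 * (2 ^ n) ^ 2 := by ring
          have e3 : 64 * n ^ 3 * 1 ≤ 128 * (2 ^ n) ^ 2 := by
            have : n ^ 3 ≤ (2 ^ n) ^ 2 := by
              calc n ^ 3 ≤ n ^ 4 := Nat.pow_le_pow_right hn0 (by norm_num)
                _ = (n ^ 2) ^ 2 := by ring
                _ ≤ (2 ^ n) ^ 2 := Nat.pow_le_pow_left hn 2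
            omega
          have e4 : 64 * n ^ 3 * (n * 2 ^ n * (2 * a) + 1) ≤ 64 * n ^ 3 * a0 ^ 2 := by
            calc 64 * n ^ 3 * (n * 2 ^ n * (2 * a) + 1)
                = 64 * n ^ 3 * (n * 2 ^ n * (2 * a)) + 64 * n ^ 3 * 1 := by ring
              _ ≤ 128 * (2 ^ n) ^ 2 + 128 * (2 ^ n) ^ 2 := Nat.add_le_add e2 e3
              _ = 256 * (2 ^ n) ^ 2 := by ring
              _ ≤ n * (2 ^ n) ^ 2 := Nat.mul_le_mul_right _ hn256
              _ ≤ n * (8 * n * a0) ^ 2 := Nat.mul_le_mul_left _ e1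
              _ = 64 * n ^ 3 * a0 ^ 2 := by ring
          exact Nat.le_of_mul_le_mul_left e4 (by positivity)
  have h2 := H2 n a
  have h3 : s n ≤ 2 * (s n - ((2 ^ n).factorial) ^ (2 * a)) := by omega
  calc s n * 2 ^ (a ^ 2) ≤ 2 * (s n - ((2 ^ n).factorial) ^ (2 * a)) * 2 ^ (a ^ 2) :=
        Nat.mul_le_mul_right _ h3
    _ = 2 * ((s n - ((2 ^ n).factorial) ^ (2 * a)) * 2 ^ (a ^ 2)) := by ring
    _ ≤ 2 * s (n + 1) := Nat.mul_le_mul_left _ h2

/-- the sum of the previous terms is at most a constant times the last one -/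
theorem partial_sum (hpos : ∀ n, 0 < s n)
    (hg : ∀ᶠ n : ℕ in atTop, s n * 2 ^ ((2 ^ n / n ^ 4) ^ 2) ≤ 2 * s (n + 1)) :
    ∃ C : ℕ, ∀ n, ∑ j ∈ Finset.range (n + 1), s j ≤ C * s n := by
  have hg2 : ∀ᶠ n : ℕ in atTop, 2 * s n ≤ s (n + 1) := by
    filter_upwards [hg, pow_le_two_pow 5, eventually_ge_atTop 2] with n hn h5 hn2
    have h1 : 2 ≤ 2 ^ n / n ^ 4 := by
      rw [Nat.le_div_iff_mul_le (by positivity)]
      calc 2 * n ^ 4 ≤ n * n ^ 4 := Nat.mul_le_mul_right _ hn2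
        _ = n ^ 5 := by ring
        _ ≤ 2 ^ n := h5
    have h2 : 4 ≤ 2 ^ ((2 ^ n / n ^ 4) ^ 2) := by
      calc 4 = 2 ^ 2 := by norm_num
        _ ≤ 2 ^ ((2 ^ n / n ^ 4) ^ 2) := by
          apply Nat.pow_le_pow_right (by norm_num)
          nlinarith
    have h3 : s n * 4 ≤ 2 * s (n + 1) := le_trans (Nat.mul_le_mul_left _ h2) hn
    omega
  obtain ⟨N, hN⟩ := eventually_atTop.1 hg2
  refine ⟨∑ j ∈ Finset.range (N + 1), s j + 2, fun n => ?_⟩
  rcases le_or_gt n N with h | h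
  · calc ∑ j ∈ Finset.range (n + 1), s j ≤ ∑ j ∈ Finset.range (N + 1), s j :=
        Finset.sum_le_sum_of_subset (by
          intro x hx
          rw [Finset.mem_range] at hx ⊢
          omega)
      _ ≤ (∑ j ∈ Finset.range (N + 1), s j + 2) * 1 := by omega
      _ ≤ (∑ j ∈ Finset.range (N + 1), s j + 2) * s n := Nat.mul_le_mul_left _ (hpos n)
  · set C := ∑ j ∈ Finset.range (N + 1), s j + 2 with hC
    have key : ∀ m, ∑ j ∈ Finset.range (N + m + 1), s j ≤ C * s (N + m) := by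
      intro m
      induction m with
      | zero =>
        calc ∑ j ∈ Finset.range (N + 0 + 1), s j ≤ C * 1 := by
              simp only [add_zero]; omega
          _ ≤ C * s (N + 0) := Nat.mul_le_mul_left _ (hpos _)
      | succ m ih =>
        rw [Finset.sum_range_succ]
        have h1 := hN (N + m) (by omega)
        have h2 : N + (m + 1) = N + m + 1 := by ring
        rw [h2]
        have hC2 : 2 ≤ C := by omega
        nlinarith
    obtain ⟨m, rfl⟩ : ∃ m, n = N + m := ⟨n - N, by omega⟩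
    exact key m

/-- final numerical estimate -/
theorem final (hpos : ∀ n, 0 < s n)
    (H1 : ∀ n a : ℕ, 2 ≤ n → 2 * a ≤ n.choose (n / 2) → 2 ^ (a ^ 2) ≤ s (n + 1))
    (H2 : ∀ n a : ℕ, (s n - ((2 ^ n).factorial) ^ (2 * a)) * 2 ^ (a ^ 2) ≤ s (n + 1))
    (H3 : ∀ n, b (n + 1) ≤ (2 ^ (n + 1)).factorial * (2 ^ (n + 1)).factorial *
      (s n * (((2 ^ n).factorial) ^ n * (2 ^ n).factorial))) :
    ∀ᶠ n : ℕ in atTop, (∑ j ∈ Finset.range (n + 1), s j + b (n + 1)) * (2 ^ (n + 1)).factorial *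
      2 ^ (4 ^ n / n ^ 9) ≤ s (n + 1) := by
  have hg := growth s H1 H2
  obtain ⟨C, hC⟩ := partial_sum s hpos hg
  filter_upwards [hg, pow_le_two_pow 12, eventually_ge_atTop 1000, eventually_ge_atTop C]
    with n hn h12 hn1000 hnC
  set a := 2 ^ n / n ^ 4 with ha
  set r := 4 ^ n / n ^ 9 with hr
  have hn0 : 0 < n := by omega
  -- size of `a`
  have ha1 : 2 ^ n ≤ 2 * (a * n ^ 4) := by
    have h1 : 2 ^ n < n ^ 4 * (a + 1) := Nat.lt_mul_div_succ _ (by positivity)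
    have h2 : n ^ 4 ≤ 2 ^ n := (Nat.pow_le_pow_right hn0 (by norm_num)).trans h12
    have h3 : 1 ≤ a := by
      rw [ha, Nat.le_div_iff_mul_le (by positivity)]
      simpa using h2
    have h4 : n ^ 4 ≤ a * n ^ 4 := by nlinarith [Nat.zero_le (n ^ 4)]
    have h5 : n ^ 4 * (a + 1) = a * n ^ 4 + n ^ 4 := by ring
    omega
  have ha2 : (2 ^ n) ^ 2 ≤ 4 * n ^ 8 * a ^ 2 := by
    calc (2 ^ n) ^ 2 ≤ (2 * (a * n ^ 4)) ^ 2 := Nat.pow_le_pow_left ha1 2
      _ = 4 * n ^ 8 * a ^ 2 := by ring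
  have hr1 : r * n ^ 9 ≤ (2 ^ n) ^ 2 := by
    calc r * n ^ 9 ≤ 4 ^ n := Nat.div_mul_le_self _ _
      _ = (2 ^ n) ^ 2 := by rw [← pow_mul, mul_comm, pow_mul]; norm_num
  -- the exponent
  set E := 1 + 6 * (n + 1) * 2 ^ n + n * (n + 1) * 2 ^ n + r with hE
  have hEa : E + 1 ≤ a ^ 2 := by
    have hX : 1 ≤ 2 ^ n := Nat.one_le_two_pow
    have e1 : 4 * n ^ 9 * (E + 1) ≤ 4 * n ^ 9 * a ^ 2 := by
      have e2 : 1 + 6 * (n + 1) * 2 ^ n + n * (n + 1) * 2 ^ n + 1 ≤ 3 * n ^ 2 * 2 ^ n := by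
        have e3 : 2 + 6 * (n + 1) + n * (n + 1) ≤ 3 * n ^ 2 := by nlinarith
        calc 1 + 6 * (n + 1) * 2 ^ n + n * (n + 1) * 2 ^ n + 1
            ≤ (2 + 6 * (n + 1) + n * (n + 1)) * 2 ^ n := by
              have : (2 + 6 * (n + 1) + n * (n + 1)) * 2 ^ n =
                2 * 2 ^ n + 6 * (n + 1) * 2 ^ n + n * (n + 1) * 2 ^ n := by ring
              omega
          _ ≤ 3 * n ^ 2 * 2 ^ n := Nat.mul_le_mul_right _ e3
      calc 4 * n ^ 9 * (E + 1)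
          = 4 * n ^ 9 * (1 + 6 * (n + 1) * 2 ^ n + n * (n + 1) * 2 ^ n + 1) + 4 * (r * n ^ 9) := by
            rw [hE]; ring
        _ ≤ 4 * n ^ 9 * (3 * n ^ 2 * 2 ^ n) + 4 * (2 ^ n) ^ 2 :=
            Nat.add_le_add (Nat.mul_le_mul_left _ e2) (Nat.mul_le_mul_left _ hr1)
        _ = 12 * (n ^ 11 * 2 ^ n) + 4 * (2 ^ n) ^ 2 := by ring
        _ ≤ 12 * ((2 ^ n) * 2 ^ n) + 4 * (2 ^ n) ^ 2 := by
            have : n ^ 11 ≤ 2 ^ n := (Nat.pow_le_pow_right hn0 (by norm_num)).trans h12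
            exact Nat.add_le_add_right (Nat.mul_le_mul_left _ (Nat.mul_le_mul_right _ this)) _
        _ = 16 * (2 ^ n) ^ 2 := by ring
        _ ≤ n * (2 ^ n) ^ 2 := Nat.mul_le_mul_right _ (by omega)
        _ ≤ n * (4 * n ^ 8 * a ^ 2) := Nat.mul_le_mul_left _ ha2
        _ = 4 * n ^ 9 * a ^ 2 := by ring
    exact Nat.le_of_mul_le_mul_left e1 (by positivity)
  -- factorials
  set F := (2 ^ (n + 1)).factorial with hF
  have hF1 : F ≤ 2 ^ ((n + 1) * 2 ^ (n + 1)) := factorial_le _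
  have hG1 := factorial_le n
  set G := (2 ^ n).factorial with hG
  have hF0 : 1 ≤ F := Nat.factorial_pos _
  have hG0 : 1 ≤ G := Nat.factorial_pos _
  have hnG : n ≤ G := by
    calc n ≤ 2 ^ n := Nat.lt_two_pow_self.le
      _ ≤ G := Nat.self_le_factorial _
  have hsum : ∑ j ∈ Finset.range (n + 1), s j + b (n + 1) ≤ 2 * (F * F * (G ^ n * G)) * s n := by
    have h1 : ∑ j ∈ Finset.range (n + 1), s j ≤ n * s n :=
      (hC n).trans (Nat.mul_le_mul_right _ hnC)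
    have h2 := H3 n
    have h3 : n ≤ F * F * (G ^ n * G) := by
      have e1 : 1 ≤ G ^ n := Nat.one_le_pow _ _ hG0
      calc n ≤ G := hnG
        _ = 1 * 1 * (1 * G) := by ring
        _ ≤ F * F * (G ^ n * G) := by gcongr
    calc ∑ j ∈ Finset.range (n + 1), s j + b (n + 1)
        ≤ n * s n + F * F * (s n * (G ^ n * G)) := Nat.add_le_add h1 h2
      _ ≤ F * F * (G ^ n * G) * s n + F * F * (s n * (G ^ n * G)) :=
          Nat.add_le_add_right (Nat.mul_le_mul_right _ h3) _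
      _ = 2 * (F * F * (G ^ n * G)) * s n := by ring
  have hbig : 2 * (F * F * (G ^ n * G)) * F * 2 ^ r ≤ 2 ^ E := by
    calc 2 * (F * F * (G ^ n * G)) * F * 2 ^ r = 2 * F ^ 3 * G ^ (n + 1) * 2 ^ r := by ring
      _ ≤ 2 * (2 ^ ((n + 1) * 2 ^ (n + 1))) ^ 3 * (2 ^ (n * 2 ^ n)) ^ (n + 1) * 2 ^ r := by gcongr
      _ = 2 ^ E := by
          rw [← pow_mul, ← pow_mul, ← pow_succ', ← pow_add, ← pow_add]
          congr 1
          rw [hE]
          ring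
  have hfin : 2 * ((∑ j ∈ Finset.range (n + 1), s j + b (n + 1)) * F * 2 ^ r) ≤
      2 * s (n + 1) := by
    calc 2 * ((∑ j ∈ Finset.range (n + 1), s j + b (n + 1)) * F * 2 ^ r)
        ≤ 2 * (2 * (F * F * (G ^ n * G)) * s n * F * 2 ^ r) := by gcongr
      _ = s n * (2 * (2 * (F * F * (G ^ n * G)) * F * 2 ^ r)) := by ring
      _ ≤ s n * (2 * 2 ^ E) := by gcongr
      _ = s n * 2 ^ (E + 1) := by ring
      _ ≤ s n * 2 ^ (a ^ 2) := Nat.mul_le_mul_left _ (Nat.pow_le_pow_right (by norm_num) hEa)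
      _ ≤ 2 * s (n + 1) := hn
  omega

end Pool.Agent.Lib.TG12.Asym
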