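/-
Shared definitions for MP_12cf61_al (transitive permutation groups and exponential graph growth).
-/
import Mathlib

namespace Pool.Agent.Lib.TG12

open Equiv Filter

/-- `(Γ, G)` is a locally-`L` pair: `Γ` is connected, `G` consists of automorphisms of `Γ`, is
transitive on vertices and, at every vertex `v`, the group that the stabiliser `G_v` induces on the
neighbourhood of `v` is permutation isomorphic to `L` (by a bijection `e`). -/
structure IsLocallyPair {V Ω : Type} (Γ : SimpleGraph V) (G : Subgroup (Perm V))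
    (L : Subgroup (Perm Ω)) : Prop where
  connected : Γ.Connected
  aut : ∀ g ∈ G, ∀ u v, Γ.Adj (g u) (g v) ↔ Γ.Adj u v
  trans : ∀ u v, ∃ g ∈ G, g u = v
  loc : ∀ v, ∃ e : Γ.neighborSet v ≃ Ω, ∀ σ : Perm Ω, σ ∈ L ↔
    ∃ g ∈ G, g v = v ∧ ∀ w w' : Γ.neighborSet v, (w' : V) = g w → e w' = σ (e w)

/-- `L` has exponential graph growth: there are locally-`L` pairs `(Γ_m, G_m)` on finite vertex sets
whose sizes tend to infinity and a constant `c > 1` with `|(G_m)_v| ≥ c ^ |V Γ_m|`. -/
def HasExpGrowth {Ω : Type} (L : Subgroup (Perm Ω)) : Prop :=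
  ∃ (V : ℕ → Type) (Γ : ∀ m, SimpleGraph (V m)) (G : ∀ m, Subgroup (Perm (V m))) (c : ℝ),
    1 < c ∧ (∀ m, Finite (V m)) ∧ Tendsto (fun m => Nat.card (V m)) atTop atTop ∧
    (∀ m, IsLocallyPair (Γ m) (G m) L) ∧
    ∀ m v, c ^ (Nat.card (V m)) ≤ (Nat.card {g : Perm (V m) // g ∈ G m ∧ g v = v} : ℝ)

/-- the transitive subgroups of the symmetric group on `Ω` that are `2`-groups -/
def T2 (Ω : Type) : Set (Subgroup (Perm Ω)) :=
  {L | (∀ x y : Ω, ∃ g ∈ L, g x = y) ∧ IsPGroup 2 L}

/-- the permutation isomorphism class of `L` inside the symmetric group on `Ω` -/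
def permClass {Ω : Type} (L : Subgroup (Perm Ω)) : Set (Subgroup (Perm Ω)) :=
  {M | ∃ σ : Perm Ω, M = L.map (MulAut.conj σ).toMonoidHom}

/-- number of permutation isomorphism classes of members of the family `P` -/
noncomputable def numClasses {Ω : Type} (P : Set (Subgroup (Perm Ω))) : ℕ :=
  (permClass '' P).ncard

/-- number of permutation isomorphism classes of transitive `2`-groups of degree at most `n` -/
noncomputable def perm2 (n : ℕ) : ℕ := ∑ d ∈ Finset.Icc 1 n, numClasses (T2 (Fin d))

/-- number of those classes whose groups have exponential graph growth -/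
noncomputable def exp2 (n : ℕ) : ℕ :=
  ∑ d ∈ Finset.Icc 1 n, numClasses {L ∈ T2 (Fin d) | HasExpGrowth L}

/-- number of transitive `2`-subgroups of the symmetric group of degree `2 ^ n` -/
noncomputable def s2 (n : ℕ) : ℕ := (T2 (Fin (2 ^ n))).ncard

/-- number of those without exponential graph growth -/
noncomputable def b2 (n : ℕ) : ℕ := {L ∈ T2 (Fin (2 ^ n)) | ¬ HasExpGrowth L}.ncard

end Pool.Agent.Lib.TG12
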