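/-
Module D: many transitive `2`-groups of degree `2 ^ (n+1)` from the middle Reed-Muller layer.
-/
import Pool.Agent.Lib.MP_12cf61_al.Defs

namespace Pool.Agent.Lib.TG12

open Equiv Filter

/-- the number of transitive 2-subgroups depends on the cardinality only -/
theorem T2_ncard_congr {Ω Ω' : Type} (e : Ω ≃ Ω') : (T2 Ω).ncard = (T2 Ω').ncard := by
  let E : Perm Ω ≃* Perm Ω' := e.permCongrHom
  have hE : ∀ (g : Perm Ω) (x : Ω'), E g x = e (g (e.symm x)) := fun g x => rfl
  refine Set.ncard_congr (fun L _ => L.map E.toMonoidHom) ?_ ?_ ?_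
  · rintro L ⟨h1, h2⟩
    refine ⟨fun x y => ?_, h2.map _⟩
    obtain ⟨g, hg, hgx⟩ := h1 (e.symm x) (e.symm y)
    refine ⟨E g, ⟨g, hg, rfl⟩, ?_⟩
    rw [hE, hgx, Equiv.apply_symm_apply]
  · intro L M _ _ h
    exact Subgroup.map_injective E.injective h
  · rintro L ⟨h1, h2⟩
    refine ⟨L.map E.symm.toMonoidHom, ⟨fun x y => ?_, h2.map _⟩, ?_⟩
    · obtain ⟨g, hg, hgx⟩ := h1 (e x) (e y)
      refine ⟨E.symm g, ⟨g, hg, rfl⟩, ?_⟩
      have : E (E.symm g) (e x) = e y := by rw [E.apply_symm_apply, hgx]
      rw [hE, Equiv.symm_apply_apply] at this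
      exact e.injective this
    · ext g
      simp only [Subgroup.mem_map]
      constructor
      · rintro ⟨x, ⟨y, hy, rfl⟩, rfl⟩
        simpa using hy
      · intro hg
        exact ⟨E.symm g, ⟨g, hg, rfl⟩, by simp⟩

namespace RM

variable {n : ℕ}

/-- algebraic normal form coefficients -/
def cf (f : Finset (Fin n) → ZMod 2) (T : Finset (Fin n)) : ZMod 2 := ∑ U ∈ T.powerset, f U

theorem cf_add (f g : Finset (Fin n) → ZMod 2) (T : Finset (Fin n)) :
    cf (fun U => f U + g U) T = cf f T + cf g T := by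
  simp [cf, Finset.sum_add_distrib]

theorem cf_neg (f : Finset (Fin n) → ZMod 2) (T : Finset (Fin n)) :
    cf (fun U => - f U) T = - cf f T := by
  simp [cf]

theorem cf_insert (f : Finset (Fin n) → ZMod 2) (T : Finset (Fin n)) (i : Fin n) (hi : i ∉ T) :
    cf f (insert i T) = cf f T + cf (fun U => f (insert i U)) T := by
  simp only [cf]
  exact Finset.sum_powerset_insert hi f

theorem two_eq (x : ZMod 2) : x + x = 0 := CharTwo.add_self_eq_zero x

theorem sd_empty (U : Finset (Fin n)) : symmDiff U (∅ : Finset (Fin n)) = U := by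
  ext x
  simp [Finset.mem_symmDiff]

theorem cf_cf (g : Finset (Fin n) → ZMod 2) (T : Finset (Fin n)) : cf (cf g) T = g T := by
  induction T using Finset.induction_on generalizing g with
  | empty => simp [cf]
  | insert i T hi ih =>
    rw [cf_insert _ _ _ hi]
    have h1 : cf (fun U => cf g (insert i U)) T =
        cf (fun U => cf g U + cf (fun V => g (insert i V)) U) T := by
      refine Finset.sum_congr rfl fun U hU => ?_
      rw [Finset.mem_powerset] at hU
      exact cf_insert g U i (fun h => hi (hU h))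
    rw [h1, cf_add, ih, ← add_assoc]
    change g T + g T + cf (cf fun V => g (insert i V)) T = _
    rw [ih, two_eq, zero_add]

theorem cf_shift (f : Finset (Fin n) → ZMod 2) (T : Finset (Fin n)) (i : Fin n) :
    cf (fun U => f (symmDiff U {i})) T = cf f T ∨
    cf (fun U => f (symmDiff U {i})) T = cf f (insert i T) + cf f T ∧ i ∉ T := by
  by_cases hi : i ∈ T
  · left
    refine Finset.sum_nbij' (fun U => symmDiff U {i}) (fun U => symmDiff U {i}) ?_ ?_ ?_ ?_ ?_
    · intro U hU
      rw [Finset.mem_powerset] at hU ⊢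
      intro x hx
      rw [Finset.mem_symmDiff] at hx
      rcases hx with hx | hx
      · exact hU hx.1
      · rw [Finset.mem_singleton.1 hx.1]; exact hi
    · intro U hU
      rw [Finset.mem_powerset] at hU ⊢
      intro x hx
      rw [Finset.mem_symmDiff] at hx
      rcases hx with hx | hx
      · exact hU hx.1
      · rw [Finset.mem_singleton.1 hx.1]; exact hi
    · intro U _
      simp
    · intro U _
      simp
    · intro U _
      rfl
  · right
    refine ⟨?_, hi⟩
    rw [cf_insert f T i hi]
    have : cf (fun U => f (symmDiff U {i})) T = cf (fun U => f (insert i U)) T := by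
      refine Finset.sum_congr rfl fun U hU => ?_
      rw [Finset.mem_powerset] at hU
      refine congrArg f ?_
      ext x
      simp only [Finset.mem_symmDiff, Finset.mem_singleton, Finset.mem_insert]
      constructor
      · rintro (h | h)
        · exact Or.inr h.1
        · exact Or.inl h.1
      · rintro (h | h)
        · subst h
          exact Or.inr ⟨rfl, fun h => hi (hU h)⟩
        · refine Or.inl ⟨h, ?_⟩
          rintro rfl
          exact hi (hU h)
    rw [this]
    have := two_eq (cf f T)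
    linear_combination -this

variable {a : ℕ} (ι : Fin a ⊕ Fin a → Finset (Fin n)) (d : ℕ)

/-- the code attached to the matrix `M` -/
def code (M : Matrix (Fin a) (Fin a) (ZMod 2)) : Set (Finset (Fin n) → ZMod 2) :=
  {f | (∀ T, d < T.card → cf f T = 0) ∧
    ∀ i, cf f (ι (Sum.inr i)) = ∑ j, M i j * cf f (ι (Sum.inl j))}

variable {ι d}

theorem code_add {M : Matrix (Fin a) (Fin a) (ZMod 2)} {f g : Finset (Fin n) → ZMod 2}
    (hf : f ∈ code ι d M) (hg : g ∈ code ι d M) : (fun U => f U + g U) ∈ code ι d M := by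
  refine ⟨fun T hT => ?_, fun i => ?_⟩
  · rw [cf_add, hf.1 T hT, hg.1 T hT, add_zero]
  · rw [cf_add, hf.2, hg.2, ← Finset.sum_add_distrib]
    refine Finset.sum_congr rfl fun j _ => ?_
    rw [cf_add, mul_add]

theorem code_neg {M : Matrix (Fin a) (Fin a) (ZMod 2)} {f : Finset (Fin n) → ZMod 2}
    (hf : f ∈ code ι d M) : (fun U => - f U) ∈ code ι d M := by
  refine ⟨fun T hT => ?_, fun i => ?_⟩
  · rw [cf_neg, hf.1 T hT, neg_zero]
  · rw [cf_neg, hf.2, ← Finset.sum_neg_distrib]
    refine Finset.sum_congr rfl fun j _ => ?_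
    rw [cf_neg, mul_neg]

theorem code_shift1 (hι : ∀ k, (ι k).card = d) {M : Matrix (Fin a) (Fin a) (ZMod 2)}
    {f : Finset (Fin n) → ZMod 2} (hf : f ∈ code ι d M) (i : Fin n) :
    (fun U => f (symmDiff U {i})) ∈ code ι d M := by
  have key : ∀ T : Finset (Fin n), d ≤ T.card → cf (fun U => f (symmDiff U {i})) T = cf f T := by
    intro T hT
    rcases cf_shift f T i with h | ⟨h, hi⟩
    · exact h
    · rw [h, hf.1 (insert i T) (by rw [Finset.card_insert_of_notMem hi]; omega), zero_add]
  refine ⟨fun T hT => ?_, fun k => ?_⟩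
  · rw [key T hT.le, hf.1 T hT]
  · rw [key _ (hι _).ge, hf.2]
    refine Finset.sum_congr rfl fun j _ => ?_
    rw [key _ (hι _).ge]

theorem code_shift (hι : ∀ k, (ι k).card = d) {M : Matrix (Fin a) (Fin a) (ZMod 2)}
    {f : Finset (Fin n) → ZMod 2} (hf : f ∈ code ι d M) (S : Finset (Fin n)) :
    (fun U => f (symmDiff U S)) ∈ code ι d M := by
  induction S using Finset.induction_on generalizing f with
  | empty => simpa only [sd_empty] using hf
  | insert i S hi ih =>
    have h1 := ih (code_shift1 hι hf i)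
    have h2 : (fun U => f (symmDiff U (insert i S))) = fun U => f (symmDiff (symmDiff U S) {i}) := by
      funext U
      congr 1
      rw [symmDiff_assoc]
      congr 1
      ext x
      simp only [Finset.mem_symmDiff, Finset.mem_singleton, Finset.mem_insert]
      constructor
      · rintro (h | h)
        · subst h; exact Or.inr ⟨rfl, hi⟩
        · refine Or.inl ⟨h, ?_⟩
          rintro rfl; exact hi h
      · rintro (h | h)
        · exact Or.inr h.1
        · exact Or.inl h.1
    rw [h2]
    exact h1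

theorem code_const (hd : 1 ≤ d) (hι : ∀ k, (ι k).card = d) (M : Matrix (Fin a) (Fin a) (ZMod 2))
    (c : ZMod 2) : (fun _ => c) ∈ code ι d M := by
  have key : ∀ T : Finset (Fin n), d ≤ T.card → cf (fun _ => c) T = 0 := by
    intro T hT
    simp only [cf, Finset.sum_const, Finset.card_powerset]
    obtain ⟨k, hk⟩ : ∃ k, T.card = k + 1 := ⟨T.card - 1, by omega⟩
    rw [hk, pow_succ, mul_comm, mul_smul]
    simp [two_smul, two_eq]
  refine ⟨fun T hT => key T hT.le, fun i => ?_⟩
  rw [key _ (hι _).ge]
  symm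
  refine Finset.sum_eq_zero fun j _ => ?_
  rw [key _ (hι _).ge, mul_zero]

/-- the group attached to the matrix `M` -/
def grp (hι : ∀ k, (ι k).card = d) (hd : 1 ≤ d) (M : Matrix (Fin a) (Fin a) (ZMod 2)) :
    Subgroup (Perm (Finset (Fin n) × ZMod 2)) where
  carrier := {g | ∃ S, ∃ f ∈ code ι d M, ∀ U y, g (U, y) = (symmDiff U S, y + f U)}
  one_mem' := ⟨∅, fun _ => 0, code_const hd hι M 0, fun U y => by simp [sd_empty]⟩
  mul_mem' := by
    rintro g h ⟨S, f, hf, hg⟩ ⟨S', f', hf', hh⟩
    refine ⟨symmDiff S' S, _, code_add hf' (code_shift hι hf S'), fun U y => ?_⟩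
    rw [Perm.mul_apply, hh, hg, symmDiff_assoc, add_assoc]
  inv_mem' := by
    rintro g ⟨S, f, hf, hg⟩
    refine ⟨S, _, code_neg (code_shift hι hf S), fun U y => ?_⟩
    rw [Perm.inv_eq_iff_eq, hg]
    refine Prod.ext (by simp) ?_
    change y = (y + - f (symmDiff U S)) + f (symmDiff U S)
    ring

theorem grp_mem_T2 (hι : ∀ k, (ι k).card = d) (hd : 1 ≤ d) (M : Matrix (Fin a) (Fin a) (ZMod 2)) :
    grp hι hd M ∈ T2 (Finset (Fin n) × ZMod 2) := by
  refine ⟨?_, ?_⟩
  · rintro ⟨U, y⟩ ⟨U', y'⟩
    let g : Perm (Finset (Fin n) × ZMod 2) :=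
      { toFun := fun p => (symmDiff p.1 (symmDiff U U'), p.2 + (y' - y))
        invFun := fun p => (symmDiff p.1 (symmDiff U U'), p.2 - (y' - y))
        left_inv := fun p => by simp
        right_inv := fun p => by simp }
    refine ⟨g, ⟨symmDiff U U', fun _ => y' - y, code_const hd hι M _, fun _ _ => rfl⟩, ?_⟩
    change (symmDiff U (symmDiff U U'), y + (y' - y)) = _
    simp
  · rintro ⟨g, S, f, hf, hg⟩
    refine ⟨2, ?_⟩
    apply Subtype.ext
    simp only [SubmonoidClass.coe_pow, OneMemClass.coe_one]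
    ext1 ⟨U, y⟩
    have h4 : (g ^ 2 ^ 2) (U, y) = g (g (g (g (U, y)))) := by
      rw [show (2 : ℕ) ^ 2 = 4 by norm_num]
      rfl
    rw [h4, hg, hg, hg, hg, Perm.one_apply]
    have e1 : symmDiff (symmDiff U S) S = U := by simp
    rw [e1, e1]
    refine Prod.ext rfl ?_
    simp only
    have h1 := two_eq (f U)
    have h2 := two_eq (f (symmDiff U S))
    linear_combination h1 + h2

theorem grp_injective (hι : ∀ k, (ι k).card = d) (hd : 1 ≤ d) (hinj : Function.Injective ι) :
    Function.Injective (grp (a := a) hι hd) := by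
  -- the code is determined by the group
  have key : ∀ M M' : Matrix (Fin a) (Fin a) (ZMod 2), grp hι hd M = grp hι hd M' →
      ∀ f ∈ code ι d M, f ∈ code ι d M' := by
    intro M M' h f hf
    let g : Perm (Finset (Fin n) × ZMod 2) :=
      { toFun := fun p => (p.1, p.2 + f p.1)
        invFun := fun p => (p.1, p.2 - f p.1)
        left_inv := fun p => by simp
        right_inv := fun p => by simp }
    have hg : g ∈ grp hι hd M := ⟨∅, f, hf, fun U y => by
      change (U, y + f U) = _
      rw [sd_empty]⟩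
    rw [h] at hg
    obtain ⟨S, f', hf', hg'⟩ := hg
    have : f = f' := by
      funext U
      have h1 := hg' U 0
      change (U, 0 + f U) = _ at h1
      have h2 := congrArg Prod.snd h1
      simpa using h2
    rw [this]; exact hf'
  intro M M' h
  ext i j
  classical
  -- a function with prescribed coefficients
  let c : Finset (Fin n) → ZMod 2 := fun T =>
    if T = ι (Sum.inl j) then 1 else ∑ i, if T = ι (Sum.inr i) then M i j else 0
  have c1 : ∀ j', c (ι (Sum.inl j')) = if j' = j then 1 else 0 := by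
    intro j'
    by_cases hj : j' = j
    · simp [c, hj]
    · have h1 : ι (Sum.inl j') ≠ ι (Sum.inl j) := fun h => hj (Sum.inl.inj (hinj h))
      have h2 : ∀ i, ι (Sum.inl j') ≠ ι (Sum.inr i) := fun i h => by
        have := hinj h
        simp at this
      simp [c, hj, h1, h2]
  have c2 : ∀ i', c (ι (Sum.inr i')) = M i' j := by
    intro i'
    have h1 : ι (Sum.inr i') ≠ ι (Sum.inl j) := fun h => by
      have := hinj h
      simp at this
    have h2 : ∀ i, (ι (Sum.inr i') = ι (Sum.inr i)) ↔ i' = i := fun i =>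
      ⟨fun h => Sum.inr.inj (hinj h), fun h => by rw [h]⟩
    simp only [c, h1, if_false, h2]
    simp
  have hf : cf c ∈ code ι d M := by
    refine ⟨fun T hT => ?_, fun i => ?_⟩
    · rw [cf_cf]
      have h1 : T ≠ ι (Sum.inl j) := fun h => by rw [h, hι] at hT; omega
      have h2 : ∀ i, T ≠ ι (Sum.inr i) := fun i h => by rw [h, hι] at hT; omega
      simp [c, h1, h2]
    · rw [cf_cf, c2]
      simp only [cf_cf, c1]
      simp
  have hf' := (key M M' h _ hf).2 i
  rw [cf_cf, c2] at hf'
  simp only [cf_cf, c1] at hf'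
  simpa using hf'

end RM

theorem s2_base (n a : ℕ) (hn : 2 ≤ n) (ha : 2 * a ≤ n.choose (n / 2)) :
    2 ^ (a ^ 2) ≤ s2 (n + 1) := by
  classical
  -- an injection of the index set into the middle layer
  have h2 : Nonempty ((Fin a ⊕ Fin a) ↪ {T : Finset (Fin n) // T.card = n / 2}) := by
    apply Function.Embedding.nonempty_of_card_le
    simp
    omega
  obtain ⟨j⟩ := h2
  let ι : Fin a ⊕ Fin a → Finset (Fin n) := fun k => (j k).1
  have hι : ∀ k, (ι k).card = n / 2 := fun k => (j k).2
  have hinj : Function.Injective ι := fun x y h => j.injective (Subtype.ext h)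
  have hd : 1 ≤ n / 2 := by omega
  have h3 : (T2 (Finset (Fin n) × ZMod 2)).ncard = s2 (n + 1) := by
    have hc : Fintype.card (Finset (Fin n) × ZMod 2) = Fintype.card (Fin (2 ^ (n + 1))) := by
      simp [pow_succ]
    exact T2_ncard_congr (Fintype.equivOfCardEq hc)
  rw [← h3]
  have h4 : (Set.range (RM.grp (a := a) hι hd)).ncard ≤ (T2 (Finset (Fin n) × ZMod 2)).ncard := by
    apply Set.ncard_le_ncard
    · rintro _ ⟨M, rfl⟩
      exact RM.grp_mem_T2 hι hd M
    · exact Set.toFinite _
  refine le_trans (le_of_eq ?_) h4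
  rw [← Nat.card_coe_set_eq, Nat.card_range_of_injective (RM.grp_injective hι hd hinj)]
  simp [Matrix, sq, Fintype.card_pi, pow_mul]

end Pool.Agent.Lib.TG12
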