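import Pool.Agent.Lib.MP_12cf61_al.Defs

namespace Pool.Agent.Lib.TG12

open Equiv Filter

/-- a transitive `2`-group of degree `2 ^ (n+1)` has a block system with two blocks -/
theorem exists_half {n : ℕ} (L : Subgroup (Perm (Fin (2 ^ (n + 1))))) (hL : L ∈ T2 (Fin (2 ^ (n + 1)))) :
    ∃ B : Set (Fin (2 ^ (n + 1))), B.ncard = 2 ^ n ∧ Bᶜ.ncard = 2 ^ n ∧ 
      ∀ g ∈ L, g '' B = B ∨ g '' B = Bᶜ := by
  classical
  obtain ⟨htr, hp⟩ := hL
  let x0 : Fin (2 ^ (n + 1)) := 0
  -- the stabiliser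
  let H : Subgroup L := (MulAction.stabilizer L x0)
  have hsm : ∀ (g : L) (x : Fin (2 ^ (n + 1))), g • x = (g : Perm (Fin (2 ^ (n + 1)))) x := fun g x => rfl
  have : MulAction.IsPretransitive L (Fin (2 ^ (n + 1))) := ⟨fun x y => by
    obtain ⟨g, hg, h⟩ := htr x y
    exact ⟨⟨g, hg⟩, h⟩⟩
  have hHi : H.index = 2 ^ (n + 1) := by
    have := MulAction.index_stabilizer_of_transitive L x0
    rw [Nat.card_eq_fintype_card, Fintype.card_fin] at this
    exact this
  obtain ⟨N, hN⟩ := hp.exists_card_eq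
  have hcard := H.card_mul_index
  rw [hHi, hN] at hcard
  obtain ⟨a, -, ha⟩ := (Nat.dvd_prime_pow Nat.prime_two).1 (Dvd.intro _ hcard)
  rw [ha, ← pow_add] at hcard
  have haN : a + (n + 1) = N := Nat.pow_right_injective le_rfl hcard
  have hdvd : 2 ^ (a + n) ∣ Nat.card L := by
    rw [hN]
    exact pow_dvd_pow _ (by omega)
  obtain ⟨K, hK, hHK⟩ := Sylow.exists_subgroup_card_pow_prime_le 2 hdvd H ha (by omega)
  have hKi : K.index = 2 := by
    have := K.card_mul_index
    rw [hK, hN] at this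
    have h3 : 2 ^ (a + n) * K.index = 2 ^ (a + n) * 2 := by
      rw [this, ← pow_succ]
      congr 1
      omega
    exact Nat.eq_of_mul_eq_mul_left (by positivity) h3
  let B : Set (Fin (2 ^ (n + 1))) := {x | ∃ k ∈ K, k • x0 = x}
  -- membership of `g • x0` in `B`
  have hmem : ∀ g : L, g • x0 ∈ B ↔ g ∈ K := by
    intro g
    constructor
    · rintro ⟨k, hk, h⟩
      have h1 : k⁻¹ * g ∈ H := by
        rw [MulAction.mem_stabilizer_iff, mul_smul, ← h, inv_smul_smul]
      have := K.mul_mem hk (hHK h1)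
      rwa [mul_inv_cancel_left] at this
    · intro h
      exact ⟨g, h, rfl⟩
  have hblk : ∀ g : L, (g ∈ K → (g : Perm (Fin (2 ^ (n + 1)))) '' B = B) ∧ 
      (g ∉ K → (g : Perm (Fin (2 ^ (n + 1)))) '' B = Bᶜ) := by
    intro g
    have hgen : ∀ y : Fin (2 ^ (n + 1)), ∃ h : L, h • x0 = y := fun y => MulAction.exists_smul_eq L x0 y
    have himg : ∀ h : L, h • x0 ∈ (g : Perm (Fin (2 ^ (n + 1)))) '' B ↔ g⁻¹ * h ∈ K := by
      intro h
      rw [← hmem, mul_smul]
      constructor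
      · rintro ⟨x, hx, hxe⟩
        have : g • x = h • x0 := hxe
        rw [← this, inv_smul_smul]
        exact hx
      · intro hx
        exact ⟨_, hx, by
          change g • g⁻¹ • h • x0 = h • x0
          rw [smul_inv_smul]⟩
    constructor
    · intro hg
      ext y
      obtain ⟨h, rfl⟩ := hgen y
      rw [himg, hmem, Subgroup.mul_mem_cancel_left _ (K.inv_mem hg)]
    · intro hg
      ext y
      obtain ⟨h, rfl⟩ := hgen y
      rw [himg, Set.mem_compl_iff, hmem, Subgroup.mul_mem_iff_of_index_two hKi, 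
        Subgroup.inv_mem_iff]
      simp [hg]
  -- the sizes
  have hex : ∃ g : L, g ∉ K := by
    by_contra hcon
    push Not at hcon
    have : K = ⊤ := by
      ext g
      simp [hcon g]
    rw [this] at hKi
    simp at hKi
  obtain ⟨t, ht⟩ := hex
  have htB := (hblk t).2 ht
  have hcc : B.ncard = Bᶜ.ncard := by
    rw [← htB, Set.ncard_image_of_injective _ (Equiv.injective _)]
  have hsum := Set.ncard_add_ncard_compl B
  rw [Nat.card_eq_fintype_card, Fintype.card_fin] at hsum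
  have hpow : 2 ^ (n + 1) = 2 ^ n * 2 := pow_succ 2 n
  refine ⟨B, by omega, by omega, fun g hg => ?_⟩
  by_cases hgK : (⟨g, hg⟩ : L) ∈ K
  · exact Or.inl ((hblk ⟨g, hg⟩).1 hgK)
  · exact Or.inr ((hblk ⟨g, hg⟩).2 hgK)

end Pool.Agent.Lib.TG12
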