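import Pool.Agent.Lib.MP_12cf61_al.H18C2
import Pool.Agent.Lib.MP_12cf61_al.H18Half

namespace Pool.Agent.Lib.TG12

open Equiv Filter

section Bad

variable {X Y : Type}

/-- the embedding of `Perm X × Perm X` into `Perm Y` given by `e : X ⊕ X ≃ Y` -/
def h18Iota (e : X ⊕ X ≃ Y) : Perm X × Perm X →* Perm Y :=
  (e.permCongrHom : Perm (X ⊕ X) →* Perm Y).comp (Equiv.Perm.sumCongrHom X X)

theorem h18Iota_inl (e : X ⊕ X ≃ Y) (d : Perm X × Perm X) (x : X) :
    h18Iota e d (e (Sum.inl x)) = e (Sum.inl (d.1 x)) := by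
  simp [h18Iota, Equiv.Perm.sumCongrHom]

theorem h18Iota_inr (e : X ⊕ X ≃ Y) (d : Perm X × Perm X) (x : X) :
    h18Iota e d (e (Sum.inr x)) = e (Sum.inr (d.2 x)) := by
  simp [h18Iota, Equiv.Perm.sumCongrHom]

theorem h18Iota_injective (e : X ⊕ X ≃ Y) : Function.Injective (h18Iota e) := by
  intro a b h
  exact Equiv.Perm.sumCongrHom_injective (e.permCongrHom.injective h)

/-- the group rebuilt from the data -/
def h18Build (e : X ⊕ X ≃ Y) (t : Perm Y) (Q : Subgroup (Perm X)) (φ : Q →* Perm X) :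
    Subgroup (Perm Y) :=
  Subgroup.closure (Set.range (fun q : Q => h18Iota e (q, φ q)) ∪ {t})

/-- a permutation preserving the image of the left half comes from a pair -/
theorem h18_exists_pair [Finite X] (e : X ⊕ X ≃ Y) (g : Perm Y)
    (hg : g '' (e '' Set.range Sum.inl) = e '' Set.range Sum.inl) : ∃ d, h18Iota e d = g := by
  classical
  have := Fintype.ofFinite X
  have h1 : Set.MapsTo (e.permCongr.symm g) (Set.range Sum.inl) (Set.range Sum.inl) := by
    rintro _ ⟨x, rfl⟩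
    have h2 : g (e (Sum.inl x)) ∈ e '' Set.range (Sum.inl : X → X ⊕ X) := by
      rw [← hg]
      exact ⟨_, ⟨_, ⟨x, rfl⟩, rfl⟩, rfl⟩
    obtain ⟨_, ⟨z, rfl⟩, hz⟩ := h2
    refine ⟨z, ?_⟩
    simp [Equiv.permCongr_apply, ← hz]
  have h3 := Equiv.Perm.mem_sumCongrHom_range_of_perm_mapsTo_inl h1
  obtain ⟨d, hd⟩ := h3
  refine ⟨d, ?_⟩
  have : h18Iota e d = e.permCongr (Equiv.Perm.sumCongrHom X X d) := rfl
  rw [this, hd, Equiv.apply_symm_apply]

/-- a group `L` with two blocks `B`, `Bᶜ` (of equal size) in which no nontrivial element fixes `B`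
pointwise is rebuilt from an equivalence, an element, the induced group and one more action -/
theorem h18_rebuild [Finite X] (e : X ⊕ X ≃ Y) (L : Subgroup (Perm Y))
    (htr : ∀ x y : Y, ∃ g ∈ L, g x = y) (hp : IsPGroup 2 L)
    (B : Set Y) (hBe : B = e '' Set.range Sum.inl) (hBX : Nonempty X)
    (hblk : ∀ g ∈ L, g '' B = B ∨ g '' B = Bᶜ)
    (hfix : ∀ k ∈ L, (∀ x ∈ B, k x = x) → k = 1) :
    ∃ (Q : Subgroup (Perm X)) (φ : Q →* Perm X) (t : Perm Y), Q ∈ T2 X ∧
      (∀ x y, ∃ g, φ g x = y) ∧ L = h18Build e t Q φ := by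
  classical
  have hinl : ∀ x : X, e (Sum.inl x) ∈ B := fun x => by
    rw [hBe]; exact ⟨_, ⟨x, rfl⟩, rfl⟩
  have hinr : ∀ x : X, e (Sum.inr x) ∉ B := fun x => by
    rw [hBe]
    rintro ⟨_, ⟨z, rfl⟩, hz⟩
    simp at hz
  -- elements mapping a point of `B` into `B` preserve `B`
  have hpres : ∀ g ∈ L, ∀ y ∈ B, g y ∈ B → g '' B = B := by
    intro g hg y hy hgy
    rcases hblk g hg with h | h
    · exact h
    · exfalso
      have : g y ∈ Bᶜ := by
        rw [← h]
        exact ⟨y, hy, rfl⟩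
      exact this hgy
  have hpres' : ∀ g ∈ L, ∀ y, y ∉ B → g y ∉ B → g '' B = B := by
    intro g hg y hy hgy
    rcases hblk g hg with h | h
    · exact h
    · exfalso
      have : g y ∈ g '' B := by
        rw [h]
        exact hgy
      obtain ⟨z, hz, hzy⟩ := this
      rw [g.injective hzy] at hz
      exact hy hz
  let D : Subgroup (Perm X × Perm X) := L.comap (h18Iota e)
  have hmemD : ∀ d, d ∈ D ↔ h18Iota e d ∈ L := fun d => Iff.rfl
  let f : D →* Perm X := (MonoidHom.fst (Perm X) (Perm X)).comp D.subtype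
  have hf : Function.Injective f := by
    rw [injective_iff_map_eq_one]
    rintro ⟨⟨q, r⟩, hd⟩ h
    have hq : q = 1 := h
    subst hq
    have h1 : h18Iota e (1, r) = 1 := by
      refine hfix _ hd fun x hx => ?_
      rw [hBe] at hx
      obtain ⟨_, ⟨z, rfl⟩, rfl⟩ := hx
      rw [h18Iota_inl]
      simp
    have h2 : ((1 : Perm X), r) = 1 := h18Iota_injective e (by rw [h1, map_one])
    exact Subtype.ext h2
  let φ : f.range →* Perm X :=
    ((MonoidHom.snd (Perm X) (Perm X)).comp D.subtype).comp (MonoidHom.ofInjective hf).symm.toMonoidHom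
  have hφ : ∀ d : D, φ (MonoidHom.ofInjective hf d) = d.1.2 := by
    intro d
    simp [φ]
  have hφ2 : ∀ q : f.range, ((q : Perm X), φ q) ∈ D ∧ ∃ d : D, d.1 = ((q : Perm X), φ q) := by
    intro q
    obtain ⟨d, rfl⟩ := (MonoidHom.ofInjective hf).surjective q
    have h1 : ((MonoidHom.ofInjective hf d : f.range) : Perm X) = d.1.1 := rfl
    rw [hφ, h1]
    exact ⟨d.2, d, rfl⟩
  -- the element `t`
  obtain ⟨x0⟩ := hBX
  obtain ⟨t, htL, ht⟩ := htr (e (Sum.inl x0)) (e (Sum.inr x0))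
  have htB : t '' B = Bᶜ := by
    rcases hblk t htL with h | h
    · exfalso
      refine hinr x0 ?_
      rw [← ht, ← h]
      exact ⟨_, hinl x0, rfl⟩
    · exact h
  refine ⟨f.range, φ, t, ⟨?_, ?_⟩, ?_, ?_⟩
  · intro x y
    obtain ⟨g, hg, hgxy⟩ := htr (e (Sum.inl x)) (e (Sum.inl y))
    have hgB := hpres g hg _ (hinl x) (by rw [hgxy]; exact hinl y)
    rw [hBe] at hgB
    obtain ⟨d, hd⟩ := h18_exists_pair e g hgB
    refine ⟨d.1, ⟨⟨d, by rw [hmemD, hd]; exact hg⟩, rfl⟩, ?_⟩
    have := h18Iota_inl e d x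
    rw [hd, hgxy] at this
    simpa using! this.symm
  · have hD : IsPGroup 2 D := IsPGroup.comap_of_injective hp (h18Iota e) (h18Iota_injective e)
    exact hD.of_surjective f.rangeRestrict f.rangeRestrict_surjective
  · intro x y
    obtain ⟨g, hg, hgxy⟩ := htr (e (Sum.inr x)) (e (Sum.inr y))
    have hgB := hpres' g hg _ (hinr x) (by rw [hgxy]; exact hinr y)
    rw [hBe] at hgB
    obtain ⟨d, hd⟩ := h18_exists_pair e g hgB
    refine ⟨MonoidHom.ofInjective hf ⟨d, by rw [hmemD, hd]; exact hg⟩, ?_⟩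
    rw [hφ]
    have := h18Iota_inr e d x
    rw [hd, hgxy] at this
    simpa using! this.symm
  · -- the groups agree
    have hsub : ∀ g ∈ L, g '' B = B → g ∈ h18Build e t f.range φ := by
      intro g hg hgB
      rw [hBe] at hgB
      obtain ⟨d, hd⟩ := h18_exists_pair e g hgB
      refine Subgroup.subset_closure (Or.inl ⟨MonoidHom.ofInjective hf ⟨d, by rw [hmemD, hd]; exact hg⟩, ?_⟩)
      simp only
      rw [hφ]
      exact hd
    apply le_antisymm
    · intro g hg
      rcases hblk g hg with h | h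
      · exact hsub g hg h
      · have h1 : t⁻¹ * g ∈ h18Build e t f.range φ := by
          refine hsub _ (L.mul_mem (L.inv_mem htL) hg) ?_
          have h2 : ((t⁻¹ * g : Perm Y) : Y → Y) '' B = (t⁻¹ : Perm Y) '' (g '' B) := by
            rw [Set.image_image]
            rfl
          rw [h2, h, ← htB, Set.image_image]
          simp
        have h3 : t ∈ h18Build e t f.range φ := Subgroup.subset_closure (Or.inr rfl)
        have := Subgroup.mul_mem _ h3 h1
        rwa [mul_inv_cancel_left] at this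
    · rw [h18Build, Subgroup.closure_le]
      rintro g (⟨q, rfl⟩ | hg)
      · exact (hφ2 q).1
      · rw [hg]
        exact htL

end Bad

/-- the bound for bad groups, assuming the criterion for two blocks -/
theorem b2_le_of (n : ℕ)
    (hA : ∀ (L : Subgroup (Perm (Fin (2 ^ (n + 1)))))
      (_ : ∀ x y : Fin (2 ^ (n + 1)), ∃ g ∈ L, g x = y) (B : Set (Fin (2 ^ (n + 1))))
      (_ : B.Nonempty) (_ : Bᶜ.Nonempty) (_ : ∀ g ∈ L, g '' B = B ∨ g '' B = Bᶜ)
      (k : Perm (Fin (2 ^ (n + 1)))) (_ : k ∈ L) (_ : k ≠ 1) (_ : ∀ x, x ∉ B → k x = x),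
      HasExpGrowth L) :
    b2 (n + 1) ≤ (2 ^ (n + 1)).factorial * (2 ^ (n + 1)).factorial *
      (s2 n * (((2 ^ n).factorial) ^ n * (2 ^ n).factorial)) := by
  classical
  let X := Fin (2 ^ n)
  let Y := Fin (2 ^ (n + 1))
  let Z := (Σ Q : T2 X, {φ : Q.1 →* Perm X // ∀ x y, ∃ g, φ g x = y}) × (X ⊕ X ≃ Y) × Perm Y
  let F : Z → Subgroup (Perm Y) := fun z => h18Build z.2.1 z.2.2 z.1.1.1 z.1.2.1
  have hsub : {L ∈ T2 Y | ¬ HasExpGrowth L} ⊆ Set.range F := by
    rintro L ⟨hL, hbad⟩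
    obtain ⟨B, hB, hBc, hblk⟩ := exists_half L hL
    have hcB : Nat.card B = 2 ^ n := hB
    have hcBc : Nat.card (Bᶜ : Set Y) = 2 ^ n := hBc
    let e1 : X ≃ B := ((Finite.equivFin B).trans (finCongr hcB)).symm
    let e2 : X ≃ (Bᶜ : Set Y) := ((Finite.equivFin (Bᶜ : Set Y)).trans (finCongr hcBc)).symm
    let e : X ⊕ X ≃ Y := (Equiv.sumCongr e1 e2).trans (Equiv.Set.sumCompl B)
    have hBe : B = e '' Set.range Sum.inl := by
      ext y
      constructor
      · intro hy
        refine ⟨Sum.inl (e1.symm ⟨y, hy⟩), ⟨_, rfl⟩, ?_⟩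
        simp [e]
      · rintro ⟨_, ⟨z, rfl⟩, rfl⟩
        simp [e]
    have hfix : ∀ k ∈ L, (∀ x ∈ B, k x = x) → k = 1 := by
      intro k hk hkB
      by_contra hk1
      refine hbad (hA L hL.1 Bᶜ ?_ ?_ ?_ k hk hk1 ?_)
      · rw [Set.nonempty_iff_ne_empty]
        intro h
        rw [h, Set.ncard_empty] at hBc
        exact pow_ne_zero n two_ne_zero hBc.symm
      · rw [compl_compl, Set.nonempty_iff_ne_empty]
        intro h
        rw [h, Set.ncard_empty] at hB
        exact pow_ne_zero n two_ne_zero hB.symm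
      · intro g hg
        rw [Set.image_compl_eq g.bijective]
        rcases hblk g hg with h | h
        · exact Or.inl (by rw [h])
        · exact Or.inr (by rw [h])
      · intro x hx
        exact hkB x (not_not.1 hx)
    obtain ⟨Q, φ, t, hQ, hφ, hLb⟩ := h18_rebuild e L hL.1 hL.2 B hBe ⟨0⟩ hblk hfix
    exact ⟨(⟨⟨Q, hQ⟩, ⟨φ, hφ⟩⟩, e, t), hLb.symm⟩
  have : Fintype (T2 X) := Fintype.ofFinite _
  have hfin : ∀ Q : T2 X, Finite (Q.1 →* Perm X) := fun Q =>
    Finite.of_injective (fun φ => (φ : Q.1 → Perm X)) DFunLike.coe_injective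
  have hfin2 : ∀ Q : T2 X, Finite {φ : Q.1 →* Perm X // ∀ x y, ∃ g, φ g x = y} := fun Q => 
    inferInstance
  have hfinZ : Finite Z := inferInstance
  have hZ : Nat.card Z ≤ (s2 n * (((2 ^ n).factorial) ^ n * (2 ^ n).factorial)) *
      ((2 ^ (n + 1)).factorial * (2 ^ (n + 1)).factorial) := by
    rw [Nat.card_prod, Nat.card_prod]
    refine Nat.mul_le_mul ?_ (le_of_eq ?_)
    · rw [Nat.card_sigma]
      have hsum : ∑ _Q : T2 X, (((2 ^ n).factorial) ^ n * (2 ^ n).factorial) =
          s2 n * (((2 ^ n).factorial) ^ n * (2 ^ n).factorial) := by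
        rw [Finset.sum_const, Finset.card_univ, smul_eq_mul, s2, ← Nat.card_coe_set_eq,
          Nat.card_eq_fintype_card]
      rw [← hsum]
      refine Finset.sum_le_sum fun Q _ => ?_
      have h1 := card_trans_homs Q.2.2 n
      refine le_trans (le_of_eq ?_) (h1.trans (Nat.mul_le_mul_right _ (Nat.pow_le_pow_left ?_ n)))
      · exact (Nat.card_coe_set_eq _)
      · refine (Subgroup.card_le_card_group _).trans (le_of_eq ?_)
        rw [Nat.card_eq_fintype_card, Fintype.card_perm, Fintype.card_fin]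
    · have e0 : X ⊕ X ≃ Y := finSumFinEquiv.trans (finCongr (by rw [pow_succ]; ring))
      rw [Nat.card_eq_fintype_card, Nat.card_eq_fintype_card, Fintype.card_equiv e0, Fintype.card_perm,
        Fintype.card_fin, Fintype.card_sum, Fintype.card_fin, pow_succ, mul_two]
  calc b2 (n + 1) ≤ (Set.range F).ncard := Set.ncard_le_ncard hsub (Set.toFinite _)
    _ ≤ Nat.card Z := by
        rw [← Set.image_univ]
        refine (Set.ncard_image_le (Set.toFinite _)).trans ?_
        rw [Set.ncard_univ]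
    _ ≤ _ := hZ
    _ = _ := by ring

end Pool.Agent.Lib.TG12
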