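import Pool.Agent.Lib.MP_12cf61_al.Defs

namespace Pool.Agent.Lib.TG12

open Equiv Filter

/-- in a finite `2`-group every square lies in every maximal subgroup -/
lemma sq_mem_of_coatom {G : Type} [Group G] [Finite G] (hG : IsPGroup 2 G)
    {M : Subgroup G} (hM : IsCoatom M) (x : G) : x ^ 2 ∈ M := by
  have : Fact (Nat.Prime 2) := ⟨Nat.prime_two⟩
  have : Group.IsNilpotent G := hG.isNilpotent
  have hn : M.Normal := Subgroup.NormalizerCondition.normal_of_coatom M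
    (Group.normalizerCondition_of_isNilpotent (G := G)) hM
  by_contra hx
  have hlt : M < M ⊔ Subgroup.zpowers (x ^ 2) := by
    refine lt_of_le_of_ne le_sup_left ?_
    intro h
    apply hx
    rw [h]
    exact Subgroup.mem_sup_right (Subgroup.mem_zpowers _)
  have htop := hM.2 _ hlt
  have hxin : x ∈ M ⊔ Subgroup.zpowers (x ^ 2) := by rw [htop]; trivial
  rw [Subgroup.mem_sup_of_normal_left] at hxin
  obtain ⟨m, hm, z, hz, hmz⟩ := hxin
  obtain ⟨k, rfl⟩ := Subgroup.mem_zpowers_iff.1 hz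
  -- `x ^ (1 - 2k) ∈ M`
  have h1 : x ^ (1 - 2 * k) ∈ M := by
    have : x ^ (1 - 2 * k) = m := by
      rw [zpow_sub, zpow_one, zpow_mul]
      have h2 : x ^ (2 : ℤ) = x ^ 2 := by norm_cast
      rw [h2]
      exact mul_inv_eq_of_eq_mul hmz.symm
    rw [this]; exact hm
  obtain ⟨n, hn2⟩ := hG x
  have h2 : x ^ ((2 : ℤ) ^ n) = 1 := by exact_mod_cast hn2
  have hcop : IsCoprime (1 - 2 * k) ((2 : ℤ) ^ n) := by
    apply IsCoprime.pow_right
    exact ⟨1, k, by ring⟩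
  obtain ⟨u, v, huv⟩ := hcop
  have h3 : x = (x ^ (1 - 2 * k)) ^ u * (x ^ ((2 : ℤ) ^ n)) ^ v := by
    rw [← zpow_mul, ← zpow_mul, ← zpow_add]
    conv_lhs => rw [← zpow_one x]
    congr 1
    linarith
  apply hx
  have : x ∈ M := by
    rw [h3, h2, one_zpow, mul_one]
    exact M.zpow_mem h1 u
  exact M.pow_mem this 2

lemma sq_mem_frattini {G : Type} [Group G] [Finite G] (hG : IsPGroup 2 G) (x : G) :
    x ^ 2 ∈ frattini G := by
  have : frattini G = ⨅ (M : Subgroup G) (_ : IsCoatom M), M := by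
    rw [frattini, Order.radical]
    rfl
  rw [this]
  simp only [Subgroup.mem_iInf]
  intro M hM
  exact sq_mem_of_coatom hG hM x

/-- Burnside basis theorem in the form of a dichotomy -/
theorem burnside {G : Type} [Group G] [Finite G] (hG : IsPGroup 2 G) (D : ℕ) :
    (∃ π : G →* Multiplicative (Fin D → ZMod 2), Function.Surjective π) ∨
    (∃ x : Fin D → G, Subgroup.closure (Set.range x) = ⊤) := by
  classical
  have hQ2 : ∀ q : G ⧸ frattini G, q * q = 1 := by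
    intro q
    induction q using QuotientGroup.induction_on with
    | H x =>
      rw [← QuotientGroup.mk_mul, QuotientGroup.eq_one_iff, ← pow_two]
      exact sq_mem_frattini hG x
  have hinv : ∀ q : G ⧸ frattini G, q⁻¹ = q := fun q => inv_eq_of_mul_eq_one_left (hQ2 q)
  have hcomm : ∀ a b : G ⧸ frattini G, a * b = b * a := by
    intro a b
    have h := hinv (a * b)
    rw [mul_inv_rev, hinv, hinv] at h
    exact h.symm
  let _ : CommGroup (G ⧸ frattini G) :=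
    { (inferInstance : Group (G ⧸ frattini G)) with mul_comm := hcomm }
  let _ : Module (ZMod 2) (Additive (G ⧸ frattini G)) :=
    AddCommGroup.zmodModule (n := 2) (fun x => by
      rw [two_smul]
      exact congrArg Additive.ofMul (hQ2 x.toMul))
  have : Finite (Additive (G ⧸ frattini G)) := inferInstanceAs (Finite (G ⧸ frattini G))
  have : Module.Finite (ZMod 2) (Additive (G ⧸ frattini G)) := Module.Finite.of_finite
  set d := Module.finrank (ZMod 2) (Additive (G ⧸ frattini G)) with hd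
  let b := Module.finBasis (ZMod 2) (Additive (G ⧸ frattini G))
  rcases le_total D d with h | h
  · left
    let L : Additive (G ⧸ frattini G) →ₗ[ZMod 2] (Fin D → ZMod 2) :=
      (LinearMap.funLeft (ZMod 2) (ZMod 2) (Fin.castLE h)) ∘ₗ
        (b.equivFun : Additive (G ⧸ frattini G) →ₗ[ZMod 2] (Fin d → ZMod 2))
    have hL : Function.Surjective L := by
      intro v
      obtain ⟨w, hw⟩ := LinearMap.funLeft_surjective_of_injective (ZMod 2) (ZMod 2)
        (Fin.castLE h) (Fin.castLE_injective h) v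
      refine ⟨b.equivFun.symm w, ?_⟩
      change LinearMap.funLeft (ZMod 2) (ZMod 2) (Fin.castLE h)
        (b.equivFun (b.equivFun.symm w)) = v
      rw [LinearEquiv.apply_symm_apply]
      exact hw
    refine ⟨{ toFun := fun g => Multiplicative.ofAdd
                (L (Additive.ofMul (QuotientGroup.mk g : G ⧸ frattini G)))
              map_one' := ?_
              map_mul' := ?_ }, ?_⟩
    · rw [QuotientGroup.mk_one, ofMul_one, map_zero, ofAdd_zero]
    · intro x y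
      rw [QuotientGroup.mk_mul, ofMul_mul, map_add, ofAdd_add]
    · intro v
      obtain ⟨w, hw⟩ := hL v.toAdd
      obtain ⟨g, hg⟩ := QuotientGroup.mk_surjective w.toMul
      refine ⟨g, ?_⟩
      change Multiplicative.ofAdd (L (Additive.ofMul (QuotientGroup.mk g : G ⧸ frattini G))) = v
      rw [hg, ofMul_toMul, hw, ofAdd_toAdd]
  · right
    choose g hg using fun i : Fin d => QuotientGroup.mk_surjective (b i).toMul
    let x : Fin D → G := fun j => if hj : (j : ℕ) < d then g ⟨j, hj⟩ else 1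
    refine ⟨x, ?_⟩
    have hmem : ∀ i, g i ∈ Subgroup.closure (Set.range x) := by
      intro i
      apply Subgroup.subset_closure
      refine ⟨Fin.castLE h i, ?_⟩
      simp [x]
    apply frattini_nongenerating
    have key : (Subgroup.closure (Set.range x)).map (QuotientGroup.mk' (frattini G)) = ⊤ := by
      set K := (Subgroup.closure (Set.range x)).map (QuotientGroup.mk' (frattini G)) with hK
      have hb : ∀ i, (b i).toMul ∈ K := fun i => ⟨g i, hmem i, hg i⟩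
      let S : Submodule (ZMod 2) (Additive (G ⧸ frattini G)) :=
        { carrier := {z | z.toMul ∈ K}
          add_mem' := fun {u v} hu hv => K.mul_mem hu hv
          zero_mem' := K.one_mem
          smul_mem' := fun c v hv => by
            have hc : ∀ c : ZMod 2, c = 0 ∨ c = 1 := by decide
            rcases hc c with rfl | rfl
            · rw [zero_smul]; exact K.one_mem
            · rw [one_smul]; exact hv }
      have hS : (⊤ : Submodule (ZMod 2) (Additive (G ⧸ frattini G))) ≤ S := by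
        rw [← b.span_eq, Submodule.span_le]
        rintro _ ⟨i, rfl⟩
        exact hb i
      rw [eq_top_iff]
      intro q _
      exact hS (x := Additive.ofMul q) trivial
    have := congrArg (Subgroup.comap (QuotientGroup.mk' (frattini G))) key
    rwa [Subgroup.comap_map_eq, QuotientGroup.ker_mk', Subgroup.comap_top] at this

/-! ### the doubling construction -/

section Double

variable {Ω : Type}

/-- pairs of elements of `Q` that agree modulo `K` -/
def PR (Q K : Subgroup (Perm Ω)) (x y : Perm Ω) : Prop := x ∈ Q ∧ y ∈ Q ∧ x⁻¹ * y ∈ K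

/-- the hypothesis that `K` is a normal subgroup of `Q` -/
def NormIn (Q K : Subgroup (Perm Ω)) : Prop := K ≤ Q ∧ ∀ q ∈ Q, ∀ k ∈ K, q * k * q⁻¹ ∈ K

lemma PR.mul {Q K : Subgroup (Perm Ω)} (h : NormIn Q K) {x y x' y' : Perm Ω}
    (h1 : PR Q K x y) (h2 : PR Q K x' y') : PR Q K (x * x') (y * y') := by
  refine ⟨Q.mul_mem h1.1 h2.1, Q.mul_mem h1.2.1 h2.2.1, ?_⟩
  have e : (x * x')⁻¹ * (y * y') = (x'⁻¹ * (x⁻¹ * y) * x'⁻¹⁻¹) * (x'⁻¹ * y') := by group
  rw [e]
  exact K.mul_mem (h.2 _ (Q.inv_mem h2.1) _ h1.2.2) h2.2.2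

lemma PR.symm {Q K : Subgroup (Perm Ω)} {x y : Perm Ω}
    (h1 : PR Q K x y) : PR Q K y x := by
  refine ⟨h1.2.1, h1.1, ?_⟩
  have e : y⁻¹ * x = (x⁻¹ * y)⁻¹ := by group
  rw [e]
  exact K.inv_mem h1.2.2

lemma PR.inv {Q K : Subgroup (Perm Ω)} (h : NormIn Q K) {x y : Perm Ω}
    (h1 : PR Q K x y) : PR Q K x⁻¹ y⁻¹ := by
  refine ⟨Q.inv_mem h1.1, Q.inv_mem h1.2.1, ?_⟩
  have e : x⁻¹⁻¹ * y⁻¹ = y * (y⁻¹ * x) * y⁻¹ := by group
  rw [e]
  exact h.2 _ h1.2.1 _ h1.symm.2.2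

/-- the swap of the two copies -/
def sw (Ω : Type) : Perm (Ω ⊕ Ω) := Equiv.sumComm Ω Ω

lemma sw_mul_sw : sw Ω * sw Ω = 1 := by
  ext x; rcases x with x | x <;> rfl

lemma sw_mul (x y : Perm Ω) :
    sw Ω * Equiv.Perm.sumCongr x y = Equiv.Perm.sumCongr y x * sw Ω := by
  ext z; rcases z with z | z <;> rfl

/-- the doubled group -/
def dbl (Q K : Subgroup (Perm Ω)) (h : NormIn Q K) : Subgroup (Perm (Ω ⊕ Ω)) where
  carrier := {σ | ∃ x y, PR Q K x y ∧
    (σ = Equiv.Perm.sumCongr x y ∨ σ = Equiv.Perm.sumCongr x y * sw Ω)}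
  mul_mem' := by
    rintro _ _ ⟨x, y, hxy, rfl | rfl⟩ ⟨x', y', hxy', rfl | rfl⟩
    · exact ⟨x * x', y * y', hxy.mul h hxy', Or.inl (Equiv.Perm.sumCongr_mul _ _ _ _)⟩
    · refine ⟨x * x', y * y', hxy.mul h hxy', Or.inr ?_⟩
      rw [← Equiv.Perm.sumCongr_mul, mul_assoc]
    · refine ⟨x * y', y * x', hxy.mul h hxy'.symm, Or.inr ?_⟩
      rw [mul_assoc, sw_mul, ← mul_assoc, Equiv.Perm.sumCongr_mul]
    · refine ⟨x * y', y * x', hxy.mul h hxy'.symm, Or.inl ?_⟩
      rw [mul_assoc, ← mul_assoc (sw Ω), sw_mul, mul_assoc, sw_mul_sw, mul_one,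
        Equiv.Perm.sumCongr_mul]
  one_mem' := ⟨1, 1, ⟨Q.one_mem, Q.one_mem, by simp⟩,
    Or.inl Equiv.Perm.sumCongr_one.symm⟩
  inv_mem' := by
    rintro _ ⟨x, y, hxy, rfl | rfl⟩
    · exact ⟨x⁻¹, y⁻¹, hxy.inv h, Or.inl (Equiv.Perm.sumCongr_inv _ _)⟩
    · refine ⟨y⁻¹, x⁻¹, hxy.symm.inv h, Or.inr ?_⟩
      rw [mul_inv_rev, Equiv.Perm.sumCongr_inv, inv_eq_of_mul_eq_one_left sw_mul_sw, sw_mul]

lemma mem_dbl {Q K : Subgroup (Perm Ω)} {h : NormIn Q K} {σ : Perm (Ω ⊕ Ω)} :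
    σ ∈ dbl Q K h ↔ ∃ x y, PR Q K x y ∧
      (σ = Equiv.Perm.sumCongr x y ∨ σ = Equiv.Perm.sumCongr x y * sw Ω) := Iff.rfl

lemma sumCongr_inj {x y x' y' : Perm Ω}
    (h : Equiv.Perm.sumCongr x y = Equiv.Perm.sumCongr x' y') : x = x' ∧ y = y' := by
  constructor
  · ext a
    have := congrArg (fun f : Perm (Ω ⊕ Ω) => f (Sum.inl a)) h
    simpa using this
  · ext a
    have := congrArg (fun f : Perm (Ω ⊕ Ω) => f (Sum.inr a)) h
    simpa using this

lemma sumCongr_ne_sw [Nonempty Ω] {x y x' y' : Perm Ω} :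
    Equiv.Perm.sumCongr x y ≠ Equiv.Perm.sumCongr x' y' * sw Ω := by
  intro h
  have a : Ω := Classical.arbitrary Ω
  have := congrArg (fun f : Perm (Ω ⊕ Ω) => f (Sum.inl a)) h
  simp [sw] at this

lemma sumCongr_mem_dbl [Nonempty Ω] {Q K : Subgroup (Perm Ω)} {h : NormIn Q K} {x y : Perm Ω} :
    Equiv.Perm.sumCongr x y ∈ dbl Q K h ↔ PR Q K x y := by
  constructor
  · rintro ⟨x', y', hxy, e | e⟩
    · obtain ⟨rfl, rfl⟩ := sumCongr_inj e
      exact hxy
    · exact absurd e sumCongr_ne_sw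
  · intro hxy
    exact ⟨x, y, hxy, Or.inl rfl⟩

lemma dbl_inj [Nonempty Ω] {Q K Q' K' : Subgroup (Perm Ω)} {h : NormIn Q K}
    {h' : NormIn Q' K'} (e : dbl Q K h = dbl Q' K' h') : Q = Q' ∧ K = K' := by
  have key : ∀ x y, PR Q K x y ↔ PR Q' K' x y := by
    intro x y
    rw [← sumCongr_mem_dbl (h := h), e, sumCongr_mem_dbl]
  constructor
  · ext x
    have := key x x
    simpa [PR, K.one_mem, K'.one_mem] using this
  · ext x
    have := key 1 x
    simp only [PR, one_mem, inv_one, one_mul, true_and] at this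
    constructor
    · intro hx; exact (this.1 ⟨h.1 hx, hx⟩).2
    · intro hx; exact (this.2 ⟨h'.1 hx, hx⟩).2

lemma dbl_mem_T2 {Q K : Subgroup (Perm Ω)} (h : NormIn Q K) (hQ : Q ∈ T2 Ω) :
    dbl Q K h ∈ T2 (Ω ⊕ Ω) := by
  obtain ⟨htr, h2⟩ := hQ
  have hdiag : ∀ x ∈ Q, PR Q K x x := fun x hx => ⟨hx, hx, by simp⟩
  refine ⟨?_, ?_⟩
  · rintro (a | a) (b | b)
    · obtain ⟨g, hg, hab⟩ := htr a b
      exact ⟨Equiv.Perm.sumCongr g g, ⟨g, g, hdiag g hg, Or.inl rfl⟩, by simp [hab]⟩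
    · obtain ⟨g, hg, hab⟩ := htr a b
      exact ⟨Equiv.Perm.sumCongr g g * sw Ω, ⟨g, g, hdiag g hg, Or.inr rfl⟩, by simp [sw, hab]⟩
    · obtain ⟨g, hg, hab⟩ := htr a b
      exact ⟨Equiv.Perm.sumCongr g g * sw Ω, ⟨g, g, hdiag g hg, Or.inr rfl⟩, by simp [sw, hab]⟩
    · obtain ⟨g, hg, hab⟩ := htr a b
      exact ⟨Equiv.Perm.sumCongr g g, ⟨g, g, hdiag g hg, Or.inl rfl⟩, by simp [hab]⟩
  · have hpow : ∀ x ∈ Q, ∃ k : ℕ, x ^ 2 ^ k = 1 := by
      intro x hx
      obtain ⟨k, hk⟩ := h2 ⟨x, hx⟩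
      exact ⟨k, by simpa using congrArg (fun z : Q => (z : Perm Ω)) hk⟩
    have hpow2 : ∀ (x : Perm Ω) (k l : ℕ), x ^ 2 ^ k = 1 → k ≤ l → x ^ 2 ^ l = 1 := by
      intro x k l hk hkl
      obtain ⟨j, rfl⟩ := Nat.exists_eq_add_of_le hkl
      rw [pow_add, pow_mul, hk, one_pow]
    have hsc : ∀ (x y : Perm Ω) (m : ℕ),
        (Equiv.Perm.sumCongr x y) ^ m = Equiv.Perm.sumCongr (x ^ m) (y ^ m) := by
      intro x y m
      induction m with
      | zero => simp [Equiv.Perm.sumCongr_one]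
      | succ m ih => rw [pow_succ, ih, Equiv.Perm.sumCongr_mul, ← pow_succ, ← pow_succ]
    have hmain : ∀ x ∈ Q, ∀ y ∈ Q, ∃ k : ℕ, (Equiv.Perm.sumCongr x y) ^ 2 ^ k = 1 := by
      intro x hx y hy
      obtain ⟨k, hk⟩ := hpow x hx
      obtain ⟨l, hl⟩ := hpow y hy
      refine ⟨max k l, ?_⟩
      rw [hsc, hpow2 x k _ hk (le_max_left _ _), hpow2 y l _ hl (le_max_right _ _),
        Equiv.Perm.sumCongr_one]
    rintro ⟨σ, x, y, hxy, rfl | rfl⟩
    · obtain ⟨k, hk⟩ := hmain x hxy.1 y hxy.2.1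
      exact ⟨k, Subtype.ext (by simpa using hk)⟩
    · obtain ⟨k, hk⟩ := hmain (x * y) (Q.mul_mem hxy.1 hxy.2.1) (y * x)
        (Q.mul_mem hxy.2.1 hxy.1)
      refine ⟨k + 1, Subtype.ext ?_⟩
      have e : (Equiv.Perm.sumCongr x y * sw Ω) ^ 2 = Equiv.Perm.sumCongr (x * y) (y * x) := by
        rw [pow_two, mul_assoc, ← mul_assoc (sw Ω), sw_mul, mul_assoc, sw_mul_sw, mul_one,
          Equiv.Perm.sumCongr_mul]
      change (Equiv.Perm.sumCongr x y * sw Ω) ^ 2 ^ (k + 1) = 1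
      rw [pow_succ' 2 k, pow_mul, e, hk]

end Double

/-! ### transport along a bijection -/

lemma T2_ncard_le {α β : Type} [Finite α] [Finite β] (e : α ≃ β) :
    (T2 α).ncard ≤ (T2 β).ncard := by
  refine Set.ncard_le_ncard_of_injOn
    (fun L : Subgroup (Perm α) => L.map (e.permCongrHom : Perm α →* Perm β)) ?_ ?_
  · rintro L ⟨htr, h2⟩
    refine ⟨?_, ?_⟩
    · intro x y
      obtain ⟨g, hg, hxy⟩ := htr (e.symm x) (e.symm y)
      refine ⟨e.permCongrHom g, ⟨g, hg, rfl⟩, ?_⟩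
      change e (g (e.symm x)) = y
      rw [hxy, Equiv.apply_symm_apply]
    · exact h2.map _
  · intro L _ M _ h
    exact Subgroup.map_injective (e.permCongrHom.injective) h

/-! ### counting -/

section Count

variable {Ω : Type}

/-- the subgroup of `Q` cut out by the matrix `A` -/
def Kmat {a : ℕ} (Q : Subgroup (Perm Ω)) (π : Q →* Multiplicative (Fin (a + a) → ZMod 2))
    (A : Fin a → Fin a → ZMod 2) : Subgroup (Perm Ω) where
  carrier := {x | ∃ h : x ∈ Q, ∀ i, (π ⟨x, h⟩).toAdd (Fin.natAdd a i) =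
    ∑ j, A i j * (π ⟨x, h⟩).toAdd (Fin.castAdd a j)}
  mul_mem' := by
    rintro x y ⟨hx, hx'⟩ ⟨hy, hy'⟩
    refine ⟨Q.mul_mem hx hy, fun i => ?_⟩
    have : (⟨x * y, Q.mul_mem hx hy⟩ : Q) = ⟨x, hx⟩ * ⟨y, hy⟩ := rfl
    rw [this, map_mul, toAdd_mul, Pi.add_apply, hx', hy', ← Finset.sum_add_distrib]
    refine Finset.sum_congr rfl fun j _ => ?_
    rw [Pi.add_apply]; ring
  one_mem' := by
    refine ⟨Q.one_mem, fun i => ?_⟩
    have : (⟨1, Q.one_mem⟩ : Q) = 1 := rfl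
    rw [this, map_one, toAdd_one]
    simp
  inv_mem' := by
    rintro x ⟨hx, hx'⟩
    refine ⟨Q.inv_mem hx, fun i => ?_⟩
    have : (⟨x⁻¹, Q.inv_mem hx⟩ : Q) = ⟨x, hx⟩⁻¹ := rfl
    rw [this, map_inv, toAdd_inv, Pi.neg_apply, hx', ← Finset.sum_neg_distrib]
    refine Finset.sum_congr rfl fun j _ => ?_
    rw [Pi.neg_apply]; ring

lemma normIn_Kmat {a : ℕ} (Q : Subgroup (Perm Ω))
    (π : Q →* Multiplicative (Fin (a + a) → ZMod 2)) (A : Fin a → Fin a → ZMod 2) :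
    NormIn Q (Kmat Q π A) := by
  refine ⟨fun x hx => hx.1, ?_⟩
  rintro q hq k ⟨hk, hk'⟩
  refine ⟨Q.mul_mem (Q.mul_mem hq hk) (Q.inv_mem hq), fun i => ?_⟩
  have : (⟨q * k * q⁻¹, Q.mul_mem (Q.mul_mem hq hk) (Q.inv_mem hq)⟩ : Q) =
    ⟨q, hq⟩ * ⟨k, hk⟩ * ⟨q, hq⟩⁻¹ := rfl
  have e : π ⟨q * k * q⁻¹, Q.mul_mem (Q.mul_mem hq hk) (Q.inv_mem hq)⟩ = π ⟨k, hk⟩ := by
    rw [this, map_mul, map_mul, map_inv]
    exact mul_inv_cancel_comm _ _
  rw [e]
  exact hk' i

lemma Kmat_inj {a : ℕ} (Q : Subgroup (Perm Ω))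
    (π : Q →* Multiplicative (Fin (a + a) → ZMod 2)) (hπ : Function.Surjective π)
    {A B : Fin a → Fin a → ZMod 2} (h : Kmat Q π A = Kmat Q π B) : A = B := by
  funext i j
  obtain ⟨⟨q, hq⟩, hqv⟩ := hπ (Multiplicative.ofAdd
    (Fin.append (Pi.single j 1 : Fin a → ZMod 2) (fun i => A i j)))
  have hA : q ∈ Kmat Q π A := by
    refine ⟨hq, fun i => ?_⟩
    rw [hqv, toAdd_ofAdd, Fin.append_right]
    simp [Fin.append_left, Pi.single_apply]
  rw [h] at hA
  obtain ⟨_, h2⟩ := hA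
  have := h2 i
  rw [hqv, toAdd_ofAdd, Fin.append_right] at this
  rw [this]
  simp [Fin.append_left, Pi.single_apply]

open Classical in
/-- the map producing many transitive groups of twice the degree -/
noncomputable def big {a : ℕ} (p : Subgroup (Perm Ω) × (Fin a → Fin a → ZMod 2)) :
    Subgroup (Perm (Ω ⊕ Ω)) :=
  if h : ∃ π : p.1 →* Multiplicative (Fin (a + a) → ZMod 2), Function.Surjective π then
    dbl p.1 (Kmat p.1 h.choose p.2) (normIn_Kmat _ _ _) else ⊥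

lemma growth_aux [Finite Ω] [Nonempty Ω] (a : ℕ) :
    ((T2 Ω).ncard - (Nat.card (Perm Ω)) ^ (a + a)) * 2 ^ (a ^ 2) ≤ (T2 (Ω ⊕ Ω)).ncard := by
  classical
  set Good : Set (Subgroup (Perm Ω)) := {Q | Q ∈ T2 Ω ∧
    ∃ π : Q →* Multiplicative (Fin (a + a) → ZMod 2), Function.Surjective π} with hGood
  set Bad : Set (Subgroup (Perm Ω)) :=
    (fun x : Fin (a + a) → Perm Ω => Subgroup.closure (Set.range x)) '' Set.univ with hBad
  have hcov : T2 Ω ⊆ Good ∪ Bad := by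
    intro Q hQ
    rcases burnside (G := Q) hQ.2 (a + a) with h | ⟨x, hx⟩
    · exact Or.inl ⟨hQ, h⟩
    · right
      refine ⟨fun i => (x i : Perm Ω), trivial, ?_⟩
      have := congrArg (Subgroup.map Q.subtype) hx
      rw [MonoidHom.map_closure, ← Set.range_comp] at this
      change Subgroup.closure (Set.range (Q.subtype ∘ x)) = Q
      rw [this, ← MonoidHom.range_eq_map, Subgroup.range_subtype]
  have hbad : Bad.ncard ≤ (Nat.card (Perm Ω)) ^ (a + a) := by
    calc Bad.ncard ≤ (Set.univ : Set (Fin (a + a) → Perm Ω)).ncard :=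
          Set.ncard_image_le (Set.toFinite _)
      _ = Nat.card (Fin (a + a) → Perm Ω) := Set.ncard_univ _
      _ = (Nat.card (Perm Ω)) ^ (a + a) := by rw [Nat.card_fun, Nat.card_fin]
  have h1 : (T2 Ω).ncard ≤ Good.ncard + Bad.ncard :=
    (Set.ncard_le_ncard hcov (Set.toFinite _)).trans (Set.ncard_union_le _ _)
  have h2 : (T2 Ω).ncard - (Nat.card (Perm Ω)) ^ (a + a) ≤ Good.ncard := by omega
  have h3 : Good.ncard * 2 ^ (a ^ 2) = (Good ×ˢ (Set.univ : Set (Fin a → Fin a → ZMod 2))).ncard := by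
    rw [Set.ncard_prod, Set.ncard_univ, Nat.card_fun, Nat.card_fun, Nat.card_fin, Nat.card_zmod,
      ← pow_mul, pow_two]
  calc _ ≤ Good.ncard * 2 ^ (a ^ 2) := Nat.mul_le_mul_right _ h2
    _ = _ := h3
    _ ≤ _ := by
      refine Set.ncard_le_ncard_of_injOn big ?_ ?_ (Set.toFinite _)
      · rintro ⟨Q, A⟩ ⟨hQ, -⟩
        have hπ := hQ.2
        unfold big
        rw [dif_pos hπ]
        exact dbl_mem_T2 _ hQ.1
      · rintro ⟨Q, A⟩ ⟨hQ, -⟩ ⟨Q', A'⟩ ⟨hQ', -⟩ heq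
        unfold big at heq
        rw [dif_pos hQ.2, dif_pos hQ'.2] at heq
        obtain ⟨e1, e2⟩ := dbl_inj heq
        dsimp only at e1 e2
        subst e1
        rw [Kmat_inj _ _ hQ.2.choose_spec e2]

end Count

/-- growth of the number of transitive `2`-groups of degree `2 ^ n` -/
theorem s2_growth (n a : ℕ) :
    (s2 n - ((2 ^ n).factorial) ^ (2 * a)) * 2 ^ (a ^ 2) ≤ s2 (n + 1) := by
  have : Nonempty (Fin (2 ^ n)) := ⟨⟨0, by positivity⟩⟩
  have h := growth_aux (Ω := Fin (2 ^ n)) a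
  rw [Nat.card_perm, Nat.card_fin, ← two_mul] at h
  refine h.trans ?_
  refine T2_ncard_le (finSumFinEquiv.trans (finCongr ?_))
  rw [pow_succ]; ring

end Pool.Agent.Lib.TG12
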