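/-
Module A: a transitive permutation group with a system of two blocks and a nontrivial element
supported in one of the blocks has exponential graph growth.
-/
import Pool.Agent.Lib.MP_12cf61_al.Defs

namespace Pool.Agent.Lib.TG12

open Equiv Filter

namespace Half

variable {Ω : Type} (B : Set Ω) (n : ℕ)

open Classical in
/-- indicator of the complement of `B` with values in `ZMod n` -/
noncomputable def bt (x : Ω) : ZMod n := if x ∈ B then 0 else 1

theorem bt_mem {x : Ω} (h : x ∈ B) : bt B n x = 0 := by simp [bt, h]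
theorem bt_not_mem {x : Ω} (h : x ∉ B) : bt B n x = 1 := by simp [bt, h]

theorem bt_pres {l : Perm Ω} (hl : l '' B = B) (x : Ω) : bt B n (l x) = bt B n x := by
  have h : l x ∈ B ↔ x ∈ B := by
    constructor
    · intro h
      rw [← hl] at h
      obtain ⟨y, hy, hxy⟩ := h
      rw [← l.injective hxy]; exact hy
    · intro h
      rw [← hl]; exact ⟨x, h, rfl⟩
  by_cases hx : x ∈ B
  · rw [bt_mem B n hx, bt_mem B n (h.2 hx)]
  · rw [bt_not_mem B n hx, bt_not_mem B n (fun h' => hx (h.1 h'))]

theorem bt_swap {l : Perm Ω} (hl : l '' B = Bᶜ) (x : Ω) : bt B n (l x) = 1 - bt B n x := by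
  have h : l x ∉ B ↔ x ∈ B := by
    constructor
    · intro h
      have h' : l x ∈ l '' B := by rw [hl]; exact h
      obtain ⟨y, hy, hxy⟩ := h'
      rw [← l.injective hxy]; exact hy
    · intro h
      have h' : l x ∈ l '' B := ⟨x, h, rfl⟩
      rw [hl] at h'
      exact h'
  by_cases hx : x ∈ B
  · rw [bt_mem B n hx, bt_not_mem B n (h.2 hx)]; ring
  · have : l x ∈ B := by
      by_contra h'
      exact hx (h.1 h')
    rw [bt_not_mem B n hx, bt_mem B n this]; ring

/-- vertices: side, position, colour -/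
abbrev VV (Ω : Type) (n : ℕ) := Bool × ZMod n × Ω

/-- adjacency from the left side to the right side -/
def Rel (u v : VV Ω n) : Prop :=
  u.1 = false ∧ v.1 = true ∧ v.2.1 = u.2.1 - (1 - bt B n u.2.2) * bt B n v.2.2

/-- the graph -/
def Gr : SimpleGraph (VV Ω n) where
  Adj u v := Rel B n u v ∨ Rel B n v u
  symm := ⟨fun _ _ h => Or.symm h⟩
  loopless := ⟨fun u h => by
    rcases h with h | h <;> exact absurd (h.1.symm.trans h.2.1) (by simp)⟩

theorem adj_ff (q q' : ZMod n) (x y : Ω) : ¬ (Gr B n).Adj (false, q, x) (false, q', y) := by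
  simp [Gr, Rel]

theorem adj_tt (q q' : ZMod n) (x y : Ω) : ¬ (Gr B n).Adj (true, q, x) (true, q', y) := by
  simp [Gr, Rel]

theorem adj_ft (q q' : ZMod n) (x y : Ω) : (Gr B n).Adj (false, q, x) (true, q', y) ↔
    q' = q - (1 - bt B n x) * bt B n y := by
  simp [Gr, Rel]

theorem adj_tf (q q' : ZMod n) (x y : Ω) : (Gr B n).Adj (true, q', y) (false, q, x) ↔
    q' = q - (1 - bt B n x) * bt B n y := by
  simp [Gr, Rel]

/-- the group: automorphisms that act on every neighbourhood like an element of `L` -/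
def GG (L : Subgroup (Perm Ω)) : Subgroup (Perm (VV Ω n)) where
  carrier := {g | (∀ u v, (Gr B n).Adj (g u) (g v) ↔ (Gr B n).Adj u v) ∧
    ∀ v, ∃ l ∈ L, ∀ w, (Gr B n).Adj v w → (g w).2.2 = l w.2.2}
  mul_mem' := by
    rintro g h ⟨hg1, hg2⟩ ⟨hh1, hh2⟩
    refine ⟨fun u v => by rw [Perm.mul_apply, Perm.mul_apply, hg1, hh1], fun v => ?_⟩
    obtain ⟨l, hl, hl'⟩ := hh2 v
    obtain ⟨m, hm, hm'⟩ := hg2 (h v)
    refine ⟨m * l, L.mul_mem hm hl, fun w hw => ?_⟩
    rw [Perm.mul_apply, hm' (h w) ((hh1 v w).2 hw), hl' w hw, Perm.mul_apply]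
  one_mem' := ⟨fun u v => Iff.rfl, fun v => ⟨1, L.one_mem, fun w _ => rfl⟩⟩
  inv_mem' := by
    rintro g ⟨hg1, hg2⟩
    refine ⟨fun u v => ?_, fun v => ?_⟩
    · rw [← hg1 (g⁻¹ u) (g⁻¹ v)]
      simp
    · obtain ⟨l, hl, hl'⟩ := hg2 (g⁻¹ v)
      refine ⟨l⁻¹, L.inv_mem hl, fun w hw => ?_⟩
      have h1 : (Gr B n).Adj (g⁻¹ v) (g⁻¹ w) := by
        rw [← hg1 (g⁻¹ v) (g⁻¹ w)]; simpa using hw
      have h2 := hl' (g⁻¹ w) h1
      have h3 : g (g⁻¹ w) = w := by simp
      rw [h3] at h2
      rw [h2]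
      simp

theorem mem_GG {L : Subgroup (Perm Ω)} {g : Perm (VV Ω n)} : g ∈ GG B n L ↔
    (∀ u v, (Gr B n).Adj (g u) (g v) ↔ (Gr B n).Adj u v) ∧
    ∀ v, ∃ l ∈ L, ∀ w, (Gr B n).Adj v w → (g w).2.2 = l w.2.2 := Iff.rfl

/-- translations -/
def trn (c : ZMod n) : Perm (VV Ω n) where
  toFun u := (u.1, u.2.1 + c, u.2.2)
  invFun u := (u.1, u.2.1 - c, u.2.2)
  left_inv u := by simp
  right_inv u := by simp

theorem trn_mem (L : Subgroup (Perm Ω)) (c : ZMod n) : trn n c ∈ GG B n L := by
  refine ⟨?_, fun v => ⟨1, L.one_mem, fun w _ => rfl⟩⟩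
  rintro ⟨s, q, x⟩ ⟨s', q', y⟩
  cases s <;> cases s' <;> simp only [trn, Equiv.coe_fn_mk, adj_ff, adj_tt, adj_ft, adj_tf] <;>
  constructor <;> intro h <;> linear_combination h

/-- action of `l` (preserving `B`) on the colours of one side `t` -/
def actP (t : Bool) (l : Perm Ω) : Perm (VV Ω n) where
  toFun u := (u.1, u.2.1, if u.1 = t then l u.2.2 else u.2.2)
  invFun u := (u.1, u.2.1, if u.1 = t then l⁻¹ u.2.2 else u.2.2)
  left_inv u := by
    rcases u with ⟨s, q, x⟩
    by_cases h : s = t <;> simp [h]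
  right_inv u := by
    rcases u with ⟨s, q, x⟩
    by_cases h : s = t <;> simp [h]

theorem actP_mem {L : Subgroup (Perm Ω)} (t : Bool) {l : Perm Ω} (hl : l ∈ L) (hB : l '' B = B) :
    actP n t l ∈ GG B n L := by
  refine ⟨?_, ?_⟩
  · rintro ⟨s, q, x⟩ ⟨s', q', y⟩
    have h1 := bt_pres B n hB
    cases s <;> cases s' <;> cases t <;>
      simp [actP, Equiv.coe_fn_mk, adj_ff, adj_tt, adj_ft, adj_tf, h1]
  · rintro ⟨s, q, x⟩
    by_cases hs : s = t
    · refine ⟨1, L.one_mem, ?_⟩
      rintro ⟨s', q', y⟩ hw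
      have : s' ≠ t := by
        rintro rfl
        subst hs
        cases s <;> simp [adj_ff, adj_tt] at hw
      simp [actP, this]
    · refine ⟨l, hl, ?_⟩
      rintro ⟨s', q', y⟩ hw
      have : s' = t := by
        cases s <;> cases s' <;> cases t <;> simp_all [adj_ff, adj_tt]
      simp [actP, this]

/-- action of `l` (swapping `B` and its complement) on the colours of one side `t`, together with a
reflection of the positions -/
noncomputable def actS (t : Bool) (l : Perm Ω) : Perm (VV Ω n) where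
  toFun u := (u.1, if u.1 = t then (if t then - u.2.1 - 1 else - u.2.1) else - u.2.1 - bt B n u.2.2,
    if u.1 = t then l u.2.2 else u.2.2)
  invFun u := (u.1, if u.1 = t then (if t then - u.2.1 - 1 else - u.2.1) else - u.2.1 - bt B n u.2.2,
    if u.1 = t then l⁻¹ u.2.2 else u.2.2)
  left_inv u := by
    rcases u with ⟨s, q, x⟩
    by_cases h : s = t
    · cases t <;> simp [h]
    · simp [h]
  right_inv u := by
    rcases u with ⟨s, q, x⟩
    by_cases h : s = t
    · cases t <;> simp [h]
    · simp [h]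

theorem actS_mem {L : Subgroup (Perm Ω)} (t : Bool) {l : Perm Ω} (hl : l ∈ L) (hB : l '' B = Bᶜ) :
    actS B n t l ∈ GG B n L := by
  refine ⟨?_, ?_⟩
  · rintro ⟨s, q, x⟩ ⟨s', q', y⟩
    have h1 := bt_swap B n hB
    cases s <;> cases s' <;> cases t <;>
      simp [actS, Equiv.coe_fn_mk, adj_ff, adj_tt, adj_ft, adj_tf, h1] <;>
    constructor <;> intro h <;> linear_combination -h
  · rintro ⟨s, q, x⟩
    by_cases hs : s = t
    · refine ⟨1, L.one_mem, ?_⟩
      rintro ⟨s', q', y⟩ hw
      have : s' ≠ t := by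
        rintro rfl
        subst hs
        cases s <;> simp [adj_ff, adj_tt] at hw
      simp [actS, this]
    · refine ⟨l, hl, ?_⟩
      rintro ⟨s', q', y⟩ hw
      have : s' = t := by
        cases s <;> cases s' <;> cases t <;> simp_all [adj_ff, adj_tt]
      simp [actS, this]

/-- swap of the two sides -/
noncomputable def swp : Perm (VV Ω n) where
  toFun u := (!u.1, - u.2.1 - bt B n u.2.2, u.2.2)
  invFun u := (!u.1, - u.2.1 - bt B n u.2.2, u.2.2)
  left_inv u := by simp
  right_inv u := by simp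

theorem swp_mem (L : Subgroup (Perm Ω)) : swp B n ∈ GG B n L := by
  refine ⟨?_, fun v => ⟨1, L.one_mem, fun w _ => rfl⟩⟩
  rintro ⟨s, q, x⟩ ⟨s', q', y⟩
  cases s <;> cases s' <;>
    simp [swp, Equiv.coe_fn_mk, adj_ff, adj_tt, adj_ft, adj_tf] <;>
  constructor <;> intro h <;> linear_combination h

/-- action of `k` on the colours of one side, only at the positions selected by `s` -/
noncomputable def loc (t : Bool) (k : Perm Ω) (s : ZMod n → Bool) : Perm (VV Ω n) where
  toFun u := (u.1, u.2.1, if u.1 = t ∧ s u.2.1 = true then k u.2.2 else u.2.2)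
  invFun u := (u.1, u.2.1, if u.1 = t ∧ s u.2.1 = true then k⁻¹ u.2.2 else u.2.2)
  left_inv u := by
    rcases u with ⟨s', q, x⟩
    by_cases h : s' = t ∧ s q = true <;> simp [h]
  right_inv u := by
    rcases u with ⟨s', q, x⟩
    by_cases h : s' = t ∧ s q = true <;> simp [h]

theorem loc_mem {L : Subgroup (Perm Ω)} (t : Bool) {k : Perm Ω} (hk : k ∈ L) (hB : k '' B = B)
    (hkB : ∀ x, x ∉ B → k x = x) (s : ZMod n → Bool) : loc n t k s ∈ GG B n L := by
  refine ⟨?_, ?_⟩
  · rintro ⟨s1, q, x⟩ ⟨s2, q', y⟩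
    have h1 := bt_pres B n hB
    have h2 : ∀ (P : Prop) [Decidable P] (z : Ω), bt B n (if P then k z else z) = bt B n z := by
      intro P _ z
      split_ifs
      · exact h1 z
      · rfl
    cases s1 <;> cases s2 <;> cases t <;>
      simp [loc, Equiv.coe_fn_mk, adj_ff, adj_tt, adj_ft, adj_tf, h2]
  · rintro ⟨s1, q, x⟩
    by_cases hs : s1 = t
    · refine ⟨1, L.one_mem, ?_⟩
      rintro ⟨s', q', y⟩ hw
      have : s' ≠ t := by
        rintro rfl
        subst hs
        cases s1 <;> simp [adj_ff, adj_tt] at hw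
      simp [loc, this]
    · -- the position of the neighbours of colour in `B`
      obtain ⟨q0, hq0⟩ : ∃ q0 : ZMod n, ∀ s' q' y, (Gr B n).Adj (s1, q, x) (s', q', y) → y ∈ B →
          q' = q0 := by
        cases s1
        · refine ⟨q, ?_⟩
          intro s' q' y hw hy
          cases s'
          · simp [adj_ff] at hw
          · rw [adj_ft, bt_mem B n hy] at hw
            rw [hw]; ring
        · refine ⟨q + bt B n x, ?_⟩
          intro s' q' y hw hy
          cases s'
          · rw [adj_tf, bt_mem B n hy] at hw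
            rw [hw]; ring
          · simp [adj_tt] at hw
      refine ⟨if s q0 = true then k else 1, ?_, ?_⟩
      · split_ifs
        · exact hk
        · exact L.one_mem
      rintro ⟨s', q', y⟩ hw
      have hs' : s' = t := by
        cases s1 <;> cases s' <;> cases t <;> simp_all [adj_ff, adj_tt]
      by_cases hy : y ∈ B
      · have := hq0 s' q' y hw hy
        subst this
        by_cases h : s q' = true <;> simp [loc, hs', h]
      · have h3 := hkB y hy
        have e1 : (loc n t k s (s', q', y)).2.2 = y := by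
          simp only [loc, Equiv.coe_fn_mk]
          split_ifs
          · exact h3
          · rfl
        have e2 : (if s q0 = true then k else 1) y = y := by
          split_ifs
          · exact h3
          · rfl
        rw [e1, e2]

theorem loc_injective (t : Bool) {k : Perm Ω} (hk : k ≠ 1) :
    Function.Injective (loc (n := n) t k) := by
  obtain ⟨x, hx⟩ : ∃ x, k x ≠ x := by
    by_contra h
    push Not at h
    exact hk (Equiv.ext h)
  intro s s' h
  funext q
  have h1 := congrArg (fun g : Perm (VV Ω n) => (g (t, q, x)).2.2) h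
  simp only [loc, Equiv.coe_fn_mk, true_and] at h1
  clear h
  rcases h2 : s q with _ | _ <;> rcases h3 : s' q with _ | _
  · rfl
  · rw [h2, h3] at h1
    simp only [Bool.false_eq_true, if_false, if_true] at h1
    exact absurd h1.symm hx
  · rw [h2, h3] at h1
    simp only [Bool.false_eq_true, if_false, if_true] at h1
    exact absurd h1 hx
  · rfl

variable {B} {n}

theorem exists_to_base {L : Subgroup (Perm Ω)} (htr : ∀ x y : Ω, ∃ g ∈ L, g x = y)
    (hblk : ∀ g ∈ L, g '' B = B ∨ g '' B = Bᶜ) (x0 : Ω) (u : VV Ω n) :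
    ∃ g ∈ GG B n L, g u = (false, 0, x0) := by
  have key : ∀ u : VV Ω n, u.1 = false → ∃ g ∈ GG B n L, g u = (false, 0, x0) := by
    rintro ⟨s, q, x⟩ hs
    simp only at hs
    subst hs
    obtain ⟨l, hl, hlx⟩ := htr x x0
    rcases hblk l hl with h | h
    · refine ⟨trn n (-q) * actP n false l, mul_mem (trn_mem B n L _) (actP_mem B n _ hl h), ?_⟩
      simp [trn, actP, hlx]
    · refine ⟨trn n q * actS B n false l, mul_mem (trn_mem B n L _) (actS_mem B n _ hl h), ?_⟩
      simp [trn, actS, hlx]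
  rcases hu : u.1 with _ | _
  · exact key u hu
  · obtain ⟨g, hg, hg'⟩ := key (swp B n u) (by simp [swp, hu])
    exact ⟨g * swp B n, mul_mem hg (swp_mem B n L), by simpa using hg'⟩

theorem GG_trans {L : Subgroup (Perm Ω)} (htr : ∀ x y : Ω, ∃ g ∈ L, g x = y)
    (hblk : ∀ g ∈ L, g '' B = B ∨ g '' B = Bᶜ) (u v : VV Ω n) : ∃ g ∈ GG B n L, g u = v := by
  obtain ⟨g, hg, hgu⟩ := exists_to_base htr hblk u.2.2 u
  obtain ⟨h, hh, hhv⟩ := exists_to_base htr hblk u.2.2 v
  refine ⟨h⁻¹ * g, mul_mem (inv_mem hh) hg, ?_⟩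
  rw [Perm.mul_apply, hgu, ← hhv]
  simp

theorem connected [NeZero n] (hB : B.Nonempty) (hBc : Bᶜ.Nonempty) : (Gr B n).Connected := by
  obtain ⟨b, hb⟩ := hB
  obtain ⟨c, hc⟩ := hBc
  have hb' := bt_mem B n hb
  have hc' : bt B n c = 1 := bt_not_mem B n hc
  -- every vertex is reachable from `(false, q, b)` for some `q`
  have h1 : ∀ u : VV Ω n, ∃ q : ZMod n, (Gr B n).Reachable (false, q, b) u := by
    rintro ⟨s, q, x⟩
    cases s
    · refine ⟨q, ?_⟩
      have e1 : (Gr B n).Adj (false, q, b) (true, q, b) := by rw [adj_ft, hb']; ring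
      have e2 : (Gr B n).Adj (true, q, b) (false, q, x) := by rw [adj_tf, hb']; ring
      exact e1.reachable.trans e2.reachable
    · refine ⟨q + bt B n x, ?_⟩
      have e1 : (Gr B n).Adj (false, q + bt B n x, b) (true, q, x) := by rw [adj_ft, hb']; ring
      exact e1.reachable
  have h2 : ∀ q : ZMod n, (Gr B n).Reachable (false, q, b) (false, q + 1, b) := by
    intro q
    have e1 : (Gr B n).Adj (false, q, b) (true, q, b) := by rw [adj_ft, hb']; ring
    have e2 : (Gr B n).Adj (true, q, b) (false, q, c) := by rw [adj_tf, hb']; ring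
    have e3 : (Gr B n).Adj (false, q, c) (true, q, c) := by rw [adj_ft, hc']; ring
    have e4 : (Gr B n).Adj (true, q, c) (false, q + 1, b) := by rw [adj_tf, hb', hc']; ring
    exact ((e1.reachable.trans e2.reachable).trans e3.reachable).trans e4.reachable
  have h3 : ∀ m : ℕ, (Gr B n).Reachable (false, 0, b) (false, (m : ZMod n), b) := by
    intro m
    induction m with
    | zero => simp
    | succ m ih =>
      have := h2 (m : ZMod n)
      push_cast
      exact ih.trans this
  have h4 : ∀ q : ZMod n, (Gr B n).Reachable (false, 0, b) (false, q, b) := by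
    intro q
    have := h3 q.val
    rwa [ZMod.natCast_zmod_val] at this
  have : Nonempty (VV Ω n) := ⟨(false, 0, b)⟩
  refine ⟨fun u v => ?_⟩
  obtain ⟨q, hq⟩ := h1 u
  obtain ⟨q', hq'⟩ := h1 v
  exact (((h4 q).trans hq).symm).trans ((h4 q').trans hq')

theorem color_bij (v : VV Ω n) :
    Function.Bijective (fun w : (Gr B n).neighborSet v => w.1.2.2) := by
  rcases v with ⟨s, q, x⟩
  constructor
  · rintro ⟨⟨s1, q1, y1⟩, h1⟩ ⟨⟨s2, q2, y2⟩, h2⟩ h
    simp only at h
    subst h
    rw [SimpleGraph.mem_neighborSet] at h1 h2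
    cases s <;> cases s1 <;> cases s2 <;>
      simp only [adj_ff, adj_tt, adj_ft, adj_tf] at h1 h2
    · subst h1; subst h2; rfl
    · have : q1 = q2 := by linear_combination h2 - h1
      subst this; rfl
  · intro y
    cases s
    · exact ⟨⟨(true, q - (1 - bt B n x) * bt B n y, y), by
        rw [SimpleGraph.mem_neighborSet, adj_ft]⟩, rfl⟩
    · exact ⟨⟨(false, q + (1 - bt B n y) * bt B n x, y), by
        rw [SimpleGraph.mem_neighborSet, adj_tf]; ring⟩, rfl⟩

theorem pair {L : Subgroup (Perm Ω)} [NeZero n] (htr : ∀ x y : Ω, ∃ g ∈ L, g x = y)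
    (hB : B.Nonempty) (hBc : Bᶜ.Nonempty)
    (hblk : ∀ g ∈ L, g '' B = B ∨ g '' B = Bᶜ) : IsLocallyPair (Gr B n) (GG B n L) L where
  connected := connected hB hBc
  aut := fun g hg => hg.1
  trans := GG_trans htr hblk
  loc := by
    intro v
    refine ⟨Equiv.ofBijective _ (color_bij v), fun σ => ⟨fun hσ => ?_, ?_⟩⟩
    · -- it suffices to find `g` with the right colours
      suffices h : ∃ g ∈ GG B n L, g v = v ∧ ∀ w, (Gr B n).Adj v w → (g w).2.2 = σ w.2.2 by
        obtain ⟨g, hg, hgv, hgc⟩ := h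
        refine ⟨g, hg, hgv, ?_⟩
        rintro ⟨w, hw⟩ ⟨w', hw'⟩ h
        simp only [Equiv.ofBijective_apply]
        simp only at h
        rw [h]
        exact hgc w hw
      rcases v with ⟨s, q, x⟩
      have hside : ∀ s' q' y, (Gr B n).Adj (s, q, x) (s', q', y) → s' = !s := by
        intro s' q' y hw
        cases s <;> cases s' <;> simp_all [adj_ff, adj_tt]
      rcases hblk σ hσ with h | h
      · refine ⟨actP n (!s) σ, actP_mem B n _ hσ h, ?_, ?_⟩
        · simp [actP]
        · rintro ⟨s', q', y⟩ hw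
          have := hside s' q' y hw
          simp [actP, this]
      · refine ⟨trn n (2 * q + bt B n x) * actS B n (!s) σ,
          mul_mem (trn_mem B n L _) (actS_mem B n _ hσ h), ?_, ?_⟩
        · simp only [Perm.mul_apply, actS, trn, Equiv.coe_fn_mk]
          have : ¬ (s = !s) := by cases s <;> simp
          simp only [this, if_false]
          congr 2
          ring
        · rintro ⟨s', q', y⟩ hw
          have := hside s' q' y hw
          simp [actS, trn, this]
    · rintro ⟨g, hg, hgv, hgc⟩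
      obtain ⟨l, hl, hl'⟩ := hg.2 v
      suffices h : σ = l by rw [h]; exact hl
      ext y
      obtain ⟨⟨w, hw⟩, hwy⟩ := (color_bij (B := B) v).2 y
      simp only at hwy
      have hadj : (Gr B n).Adj v (g w) := by
        have := (hg.1 v w).2 hw
        rwa [hgv] at this
      have h1 := hgc ⟨w, hw⟩ ⟨g w, hadj⟩ rfl
      simp only [Equiv.ofBijective_apply] at h1
      rw [hl' w hw, hwy] at h1
      exact h1.symm

end Half

/-- **Criterion.** A transitive permutation group with a system of two blocks and a nontrivial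
element supported in one of them has exponential graph growth. -/
theorem expGrowth_of_half {Ω : Type} [Finite Ω] (L : Subgroup (Perm Ω))
    (htr : ∀ x y : Ω, ∃ g ∈ L, g x = y) (B : Set Ω) (hB : B.Nonempty) (hBc : Bᶜ.Nonempty)
    (hblk : ∀ g ∈ L, g '' B = B ∨ g '' B = Bᶜ)
    (k : Perm Ω) (hk : k ∈ L) (hk1 : k ≠ 1) (hkB : ∀ x, x ∉ B → k x = x) : HasExpGrowth L := by
  have hkk : k '' B = B := by
    rcases hblk k hk with h | h
    · exact h
    · exfalso
      obtain ⟨x, hx⟩ := hBc
      have hx' : x ∈ k '' B := by rw [h]; exact hx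
      obtain ⟨b, hb, hbx⟩ := hx'
      have h1 := hkB x hx
      have : b = x := k.injective (hbx.trans h1.symm)
      exact hx (this ▸ hb)
  have hcard : ∀ m : ℕ, Nat.card (Half.VV Ω (m + 1)) = 2 * ((m + 1) * Nat.card Ω) := by
    intro m
    rw [Nat.card_prod, Nat.card_prod]
    simp
  have : Nonempty Ω := ⟨hB.some⟩
  have hpos : 0 < Nat.card Ω := Nat.card_pos
  refine ⟨fun m => Half.VV Ω (m + 1), fun m => Half.Gr B (m + 1), fun m => Half.GG B (m + 1) L,
    (2 : ℝ) ^ ((1 : ℝ) / (2 * Nat.card Ω)), ?_, fun m => inferInstance, ?_,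
    fun m => Half.pair htr hB hBc hblk, ?_⟩
  · apply Real.one_lt_rpow (by norm_num)
    positivity
  · refine tendsto_atTop_mono (fun m => ?_) tendsto_id
    show m ≤ _
    rw [hcard]
    nlinarith
  · intro m v
    have h1 : ((2 : ℝ) ^ ((1 : ℝ) / (2 * Nat.card Ω))) ^ (Nat.card (Half.VV Ω (m + 1))) =
        (2 : ℝ) ^ (m + 1) := by
      rw [← Real.rpow_natCast, ← Real.rpow_mul (by norm_num), ← Real.rpow_natCast]
      congr 1
      rw [hcard]
      push_cast
      have : (Nat.card Ω : ℝ) ≠ 0 := by positivity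
      field_simp
    rw [h1]
    have h2 : (2 : ℝ) ^ (m + 1) = (Nat.card (ZMod (m + 1) → Bool) : ℝ) := by
      rw [Nat.card_fun]
      simp
    rw [h2]
    norm_cast
    have : Finite {g : Perm (Half.VV Ω (m + 1)) // g ∈ Half.GG B (m + 1) L ∧ g v = v} :=
      Subtype.finite
    refine Nat.card_le_card_of_injective
      (fun s => ⟨Half.loc (m + 1) (!v.1) k s, Half.loc_mem B (m + 1) _ hk hkk hkB s, ?_⟩) ?_
    · rcases v with ⟨s', q, x⟩
      simp [Half.loc]
    · intro s s' h
      simp only [Subtype.mk.injEq] at h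
      exact Half.loc_injective (m + 1) _ hk1 h

end Pool.Agent.Lib.TG12
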