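/-
Module F: assembly.
-/
import Pool.Agent.Lib.MP_12cf61_al.Half
import Pool.Agent.Lib.MP_12cf61_al.Base
import Pool.Agent.Lib.MP_12cf61_al.Asym
import Pool.Agent.Lib.MP_12cf61_al.H18Bad
import Pool.Agent.Lib.MP_12cf61_al.H55Growth

namespace Pool.Agent.Lib.TG12

open Equiv Filter

theorem numClasses_le {d : ℕ} (P : Set (Subgroup (Perm (Fin d)))) : numClasses P ≤ P.ncard :=
  Set.ncard_image_le (Set.toFinite _)

theorem ncard_le_numClasses {d : ℕ} (P : Set (Subgroup (Perm (Fin d)))) :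
    P.ncard ≤ numClasses P * d.factorial := by
  classical
  have hfin : (permClass '' P).Finite := Set.toFinite _
  have h1 : P ⊆ ⋃ c ∈ hfin.toFinset, c := by
    intro L hL
    simp only [Set.Finite.mem_toFinset, Set.mem_iUnion]
    refine ⟨permClass L, ⟨L, hL, rfl⟩, 1, ?_⟩
    ext g
    simp
  have h2 : ∀ c ∈ hfin.toFinset, c.ncard ≤ d.factorial := by
    intro c hc
    rw [Set.Finite.mem_toFinset] at hc
    obtain ⟨L, _, rfl⟩ := hc
    have h3 : permClass L ⊆ Set.range (fun σ : Perm (Fin d) => L.map (MulAut.conj σ).toMonoidHom) := by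
      rintro M ⟨σ, hσ⟩
      exact ⟨σ, hσ.symm⟩
    calc (permClass L).ncard ≤ (Set.range
          (fun σ : Perm (Fin d) => L.map (MulAut.conj σ).toMonoidHom)).ncard :=
          Set.ncard_le_ncard h3 (Set.toFinite _)
      _ ≤ (Set.univ : Set (Perm (Fin d))).ncard := by
          rw [← Set.image_univ]
          exact Set.ncard_image_le (Set.toFinite _)
      _ = d.factorial := by
          rw [Set.ncard_univ, Nat.card_eq_fintype_card, Fintype.card_perm, Fintype.card_fin]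
  calc P.ncard ≤ (⋃ c ∈ hfin.toFinset, c).ncard := Set.ncard_le_ncard h1 (Set.toFinite _)
    _ ≤ ∑ c ∈ hfin.toFinset, c.ncard := Finset.set_ncard_biUnion_le _ _
    _ ≤ ∑ _c ∈ hfin.toFinset, d.factorial := Finset.sum_le_sum h2
    _ = numClasses P * d.factorial := by
        rw [Finset.sum_const, smul_eq_mul, numClasses, Set.ncard_eq_toFinset_card _ hfin]

theorem numClasses_mono {d : ℕ} {P Q : Set (Subgroup (Perm (Fin d)))} (h : P ⊆ Q) :
    numClasses P ≤ numClasses Q :=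
  Set.ncard_le_ncard (Set.image_mono h) (Set.toFinite _)

theorem numClasses_split {d : ℕ} (P : Set (Subgroup (Perm (Fin d))))
    (R : Subgroup (Perm (Fin d)) → Prop) :
    numClasses P ≤ numClasses {L ∈ P | R L} + numClasses {L ∈ P | ¬ R L} := by
  have h : P = {L ∈ P | R L} ∪ {L ∈ P | ¬ R L} := by
    ext L
    simp only [Set.mem_union, Set.mem_ofPred_eq]
    tauto
  unfold numClasses
  conv_lhs => rw [h, Set.image_union]
  exact Set.ncard_union_le _ _

/-- the degree of a transitive `2`-group is a power of two -/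
theorem T2_degree {d : ℕ} (hd : 1 ≤ d) (h : (T2 (Fin d)).Nonempty) : ∃ j, d = 2 ^ j := by
  obtain ⟨L, hL1, hL2⟩ := h
  let x : Fin d := ⟨0, hd⟩
  obtain ⟨j, hj⟩ := hL2.card_orbit x
  refine ⟨j, ?_⟩
  have : MulAction.orbit L x = Set.univ := by
    rw [Set.eq_univ_iff_forall]
    intro y
    obtain ⟨g, hg, hgy⟩ := hL1 x y
    exact ⟨⟨g, hg⟩, hgy⟩
  rw [this] at hj
  simpa using hj

theorem numClasses_empty {d : ℕ} : numClasses (∅ : Set (Subgroup (Perm (Fin d)))) = 0 := by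
  simp [numClasses]

/-- sums over all degrees are sums over powers of two -/
theorem sum_degrees (Q : ∀ d, Set (Subgroup (Perm (Fin d)))) (hQ : ∀ d, Q d ⊆ T2 (Fin d)) (n : ℕ)
    (hn : n ≠ 0) : ∑ d ∈ Finset.Icc 1 n, numClasses (Q d) =
    ∑ j ∈ Finset.range (Nat.log 2 n + 1), numClasses (Q (2 ^ j)) := by
  symm
  have hinj : Set.InjOn (fun j : ℕ => 2 ^ j) (Finset.range (Nat.log 2 n + 1) : Set ℕ) := by
    intro a _ b _ h
    exact Nat.pow_right_injective le_rfl h
  rw [← Finset.sum_image (f := fun d => numClasses (Q d)) (g := fun j : ℕ => 2 ^ j) hinj]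
  refine Finset.sum_subset ?_ ?_
  · intro d hd
    rw [Finset.mem_image] at hd
    obtain ⟨j, hj, rfl⟩ := hd
    rw [Finset.mem_range] at hj
    rw [Finset.mem_Icc]
    refine ⟨Nat.one_le_two_pow, ?_⟩
    calc 2 ^ j ≤ 2 ^ Nat.log 2 n := Nat.pow_le_pow_right (by norm_num) (by omega)
      _ ≤ n := Nat.pow_log_le_self 2 hn
  · intro d hd hd'
    rw [Finset.mem_Icc] at hd
    by_contra hne
    apply hd'
    have h1 : (Q d).Nonempty := by
      by_contra h
      rw [Set.not_nonempty_iff_eq_empty] at h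
      rw [h, numClasses_empty] at hne
      exact hne rfl
    obtain ⟨j, hj⟩ := T2_degree hd.1 (h1.mono (hQ d))
    rw [Finset.mem_image]
    refine ⟨j, ?_, hj.symm⟩
    rw [Finset.mem_range, Nat.lt_succ_iff]
    apply Nat.le_log_of_pow_le (by norm_num)
    rw [← hj]; exact hd.2

theorem s2_pos (n : ℕ) : 0 < s2 n := by
  let G := Multiplicative (Fin n → ZMod 2)
  have hG : IsPGroup 2 G := by
    intro g
    refine ⟨1, ?_⟩
    rw [pow_one]
    apply Multiplicative.toAdd.injective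
    rw [toAdd_pow, toAdd_one]
    funext i
    rw [Pi.smul_apply, two_smul]
    exact RM.two_eq _
  have h : (T2 G).Nonempty := by
    refine ⟨(MulAction.toPermHom G G).range, fun x y => ⟨_, ⟨y * x⁻¹, rfl⟩, ?_⟩, ?_⟩
    · simp
    · rw [MonoidHom.range_eq_map]
      exact hG.to_subgroup ⊤ |>.map _
  have hc : Fintype.card G = Fintype.card (Fin (2 ^ n)) := by
    simp [G]
  rw [s2, ← T2_ncard_congr (Fintype.equivOfCardEq hc)]
  exact (Set.ncard_pos (Set.toFinite _)).2 h

theorem estimate : ∀ᶠ k : ℕ in atTop, (∑ j ∈ Finset.range (k + 1), s2 j + b2 (k + 1)) *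
    (2 ^ (k + 1)).factorial * 2 ^ (4 ^ k / k ^ 9) ≤ s2 (k + 1) :=
  Asym.final s2 b2 s2_pos s2_base s2_growth
    (fun n => b2_le_of n (fun L htr B hB hBc hblk k hk hk1 hkB =>
      expGrowth_of_half L htr B hB hBc hblk k hk hk1 hkB))

/-- exponentially good bound for a single degree -/
theorem rate : ∀ᶠ k : ℕ in atTop,
    numClasses {L ∈ T2 (Fin (2 ^ (k + 1))) | ¬ HasExpGrowth L} * 2 ^ (4 ^ k / k ^ 9) ≤
      numClasses (T2 (Fin (2 ^ (k + 1)))) := by
  filter_upwards [estimate] with k hk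
  have h1 := numClasses_le {L ∈ T2 (Fin (2 ^ (k + 1))) | ¬ HasExpGrowth L}
  have h2 := ncard_le_numClasses (T2 (Fin (2 ^ (k + 1))))
  have h3 : b2 (k + 1) * (2 ^ (k + 1)).factorial * 2 ^ (4 ^ k / k ^ 9) ≤ s2 (k + 1) := by
    refine le_trans ?_ hk
    gcongr
    omega
  have h4 : numClasses {L ∈ T2 (Fin (2 ^ (k + 1))) | ¬ HasExpGrowth L} * 2 ^ (4 ^ k / k ^ 9) *
      (2 ^ (k + 1)).factorial ≤ numClasses (T2 (Fin (2 ^ (k + 1)))) * (2 ^ (k + 1)).factorial := by
    calc numClasses {L ∈ T2 (Fin (2 ^ (k + 1))) | ¬ HasExpGrowth L} * 2 ^ (4 ^ k / k ^ 9) *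
        (2 ^ (k + 1)).factorial
        ≤ b2 (k + 1) * 2 ^ (4 ^ k / k ^ 9) * (2 ^ (k + 1)).factorial := by
          gcongr
          exact h1
      _ = b2 (k + 1) * (2 ^ (k + 1)).factorial * 2 ^ (4 ^ k / k ^ 9) := by ring
      _ ≤ s2 (k + 1) := h3
      _ ≤ _ := h2
  exact Nat.le_of_mul_le_mul_right h4 (Nat.factorial_pos _)

/-- cumulative bound -/
theorem cumulative : ∀ᶠ n : ℕ in atTop,
    (perm2 n - exp2 n) * 2 ^ (4 ^ (Nat.log 2 n - 1) / (Nat.log 2 n - 1) ^ 9) ≤ perm2 n ∧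
    0 < perm2 n ∧ exp2 n ≤ perm2 n := by
  have hlog : Tendsto (fun n : ℕ => Nat.log 2 n - 1) atTop atTop := by
    refine tendsto_atTop.2 fun b => ?_
    filter_upwards [eventually_ge_atTop (2 ^ (b + 1))] with n hn
    have := Nat.le_log_of_pow_le (by norm_num) hn
    omega
  filter_upwards [hlog.eventually estimate, eventually_ge_atTop 2] with n hk hn2
  obtain ⟨k, hk'⟩ : ∃ k, Nat.log 2 n = k + 1 :=
    ⟨Nat.log 2 n - 1, by
      have : 1 ≤ Nat.log 2 n := Nat.le_log_of_pow_le (by norm_num) (by simpa using hn2)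
      omega⟩
  have e0 : Nat.log 2 n - 1 = k := by omega
  rw [e0] at hk ⊢
  have hn0 : n ≠ 0 := by omega
  have e1 : perm2 n = ∑ j ∈ Finset.range (k + 1 + 1), numClasses (T2 (Fin (2 ^ j))) := by
    rw [perm2, sum_degrees (fun d => T2 (Fin d)) (fun d => le_rfl) n hn0, hk']
  have e2 : exp2 n = ∑ j ∈ Finset.range (k + 1 + 1),
      numClasses {L ∈ T2 (Fin (2 ^ j)) | HasExpGrowth L} := by
    rw [exp2, sum_degrees (fun d => {L ∈ T2 (Fin d) | HasExpGrowth L})
      (fun d => Set.sep_subset _ _) n hn0, hk']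
  have hle : exp2 n ≤ perm2 n := by
    rw [e1, e2]
    exact Finset.sum_le_sum fun j _ => numClasses_mono (Set.sep_subset _ _)
  have hsplit : perm2 n ≤ exp2 n + ∑ j ∈ Finset.range (k + 1 + 1),
      numClasses {L ∈ T2 (Fin (2 ^ j)) | ¬ HasExpGrowth L} := by
    rw [e1, e2, ← Finset.sum_add_distrib]
    exact Finset.sum_le_sum fun j _ => numClasses_split _ _
  have hbad : ∑ j ∈ Finset.range (k + 1 + 1),
      numClasses {L ∈ T2 (Fin (2 ^ j)) | ¬ HasExpGrowth L} ≤
      ∑ j ∈ Finset.range (k + 1), s2 j + b2 (k + 1) := by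
    rw [Finset.sum_range_succ]
    refine Nat.add_le_add (Finset.sum_le_sum fun j _ => ?_) (numClasses_le _)
    exact (numClasses_mono (Set.sep_subset _ _)).trans (numClasses_le _)
  have hT := ncard_le_numClasses (T2 (Fin (2 ^ (k + 1))))
  have hTle : numClasses (T2 (Fin (2 ^ (k + 1)))) ≤ perm2 n := by
    rw [e1]
    exact Finset.single_le_sum (f := fun j => numClasses (T2 (Fin (2 ^ j))))
      (fun _ _ => Nat.zero_le _) (Finset.mem_range.2 (by omega))
  have hTpos : 0 < numClasses (T2 (Fin (2 ^ (k + 1)))) := by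
    have := s2_pos (k + 1)
    by_contra h
    have h0 : numClasses (T2 (Fin (2 ^ (k + 1)))) = 0 := by omega
    rw [h0, zero_mul] at hT
    have : s2 (k + 1) ≤ 0 := hT
    omega
  refine ⟨?_, by omega, hle⟩
  refine le_trans ?_ hTle
  have h1 : perm2 n - exp2 n ≤ ∑ j ∈ Finset.range (k + 1), s2 j + b2 (k + 1) := by omega
  have h2 : (perm2 n - exp2 n) * 2 ^ (4 ^ k / k ^ 9) * (2 ^ (k + 1)).factorial ≤
      numClasses (T2 (Fin (2 ^ (k + 1)))) * (2 ^ (k + 1)).factorial := by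
    calc (perm2 n - exp2 n) * 2 ^ (4 ^ k / k ^ 9) * (2 ^ (k + 1)).factorial
        ≤ (∑ j ∈ Finset.range (k + 1), s2 j + b2 (k + 1)) * 2 ^ (4 ^ k / k ^ 9) *
          (2 ^ (k + 1)).factorial := by gcongr
      _ = (∑ j ∈ Finset.range (k + 1), s2 j + b2 (k + 1)) * (2 ^ (k + 1)).factorial *
          2 ^ (4 ^ k / k ^ 9) := by ring
      _ ≤ s2 (k + 1) := hk
      _ ≤ _ := hT
  exact Nat.le_of_mul_le_mul_right h2 (Nat.factorial_pos _)

theorem main : Tendsto (fun n => (exp2 n : ℝ) / (perm2 n : ℝ)) atTop (nhds 1) := by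
  have hlog : Tendsto (fun n : ℕ => Nat.log 2 n - 1) atTop atTop := by
    refine tendsto_atTop.2 fun b => ?_
    filter_upwards [eventually_ge_atTop (2 ^ (b + 1))] with n hn
    have := Nat.le_log_of_pow_le (by norm_num) hn
    omega
  have hlow : Tendsto (fun n : ℕ => (1 : ℝ) - (1 / 2) ^ (Nat.log 2 n - 1)) atTop (nhds 1) := by
    have h1 : Tendsto (fun m : ℕ => ((1 : ℝ) / 2) ^ m) atTop (nhds 0) :=
      tendsto_pow_atTop_nhds_zero_of_lt_one (by norm_num) (by norm_num)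
    have h2 := (h1.comp hlog).const_sub (1 : ℝ)
    simpa using h2
  refine tendsto_of_tendsto_of_tendsto_of_le_of_le' hlow tendsto_const_nhds ?_ ?_
  · filter_upwards [cumulative, hlog.eventually (Asym.pow_le_two_pow 12),
      hlog.eventually (eventually_ge_atTop 2)] with n ⟨h1, h2, h3⟩ h12 hk2
    set k := Nat.log 2 n - 1 with hk
    have hr : k ≤ 4 ^ k / k ^ 9 := by
      rw [Nat.le_div_iff_mul_le (by positivity)]
      calc k * k ^ 9 = k ^ 10 := by ring
        _ ≤ k ^ 12 := Nat.pow_le_pow_right (by omega) (by norm_num)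
        _ ≤ 2 ^ k := h12
        _ ≤ 4 ^ k := Nat.pow_le_pow_left (by norm_num) k
    have h4 : (perm2 n - exp2 n) * 2 ^ k ≤ perm2 n :=
      le_trans (Nat.mul_le_mul_left _ (Nat.pow_le_pow_right (by norm_num) hr)) h1
    have hp : (0 : ℝ) < perm2 n := by exact_mod_cast h2
    have h5 : ((perm2 n : ℝ) - exp2 n) * 2 ^ k ≤ perm2 n := by
      have := (Nat.cast_le (α := ℝ)).2 h4
      push_cast [Nat.cast_sub h3] at this
      exact this
    rw [le_div_iff₀ hp, one_div, inv_pow]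
    have h6 : (0 : ℝ) < 2 ^ k := by positivity
    have h7 : (perm2 n : ℝ) - exp2 n ≤ perm2 n * (2 ^ k)⁻¹ := by
      rw [← div_eq_mul_inv, le_div_iff₀ h6]
      exact h5
    linarith
  · filter_upwards [cumulative] with n ⟨h1, h2, h3⟩
    have hp : (0 : ℝ) < perm2 n := by exact_mod_cast h2
    rw [div_le_one hp]
    exact_mod_cast h3

end Pool.Agent.Lib.TG12
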