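import Mathlib

namespace Pool.Agent.Lib.TG12

open Equiv Filter

/-- the sign character with kernel `H`, for `H` of index two -/
noncomputable def h18Sign {G : Type} [Group G] (H : Subgroup G) (hH : H.index = 2) : G →* ℚ where
  toFun x := by classical exact if x ∈ H then 1 else -1
  map_one' := by simp [H.one_mem]
  map_mul' x y := by
    classical
    have := Subgroup.mul_mem_iff_of_index_two hH (a := x) (b := y)
    by_cases hx : x ∈ H <;> by_cases hy : y ∈ H <;> simp [this, hx, hy]

theorem h18Sign_inj {G : Type} [Group G] (H K : Subgroup G) (hH : H.index = 2) (hK : K.index = 2)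
    (h : h18Sign H hH = h18Sign K hK) : H = K := by
  classical
  ext x
  have := DFunLike.congr_fun h x
  simp only [h18Sign, MonoidHom.coe_mk, OneHom.coe_mk] at this
  by_cases hx : x ∈ H <;> by_cases hy : x ∈ K <;> simp [hx, hy] at this ⊢ <;> norm_num at this

/-- a finite group has at most `|G|` subgroups of index two -/
theorem h18_card_index_two {G : Type} [Group G] [Finite G] :
    {H : Subgroup G | H.index = 2}.ncard ≤ Nat.card G := by
  classical
  have := Fintype.ofFinite G
  have hli := linearIndependent_monoidHom G ℚ
  have hli2 : LinearIndependent ℚ (fun H : {H : Subgroup G | H.index = 2} =>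
      ((h18Sign H.1 H.2 : G →* ℚ) : G → ℚ)) := by
    refine hli.comp (fun H : {H : Subgroup G | H.index = 2} => h18Sign H.1 H.2) ?_
    intro H K h
    exact Subtype.ext (h18Sign_inj _ _ _ _ h)
  have : Fintype {H : Subgroup G | H.index = 2} := Fintype.ofFinite _
  have h2 := hli2.fintype_card_le_finrank
  rw [Module.finrank_fintype_fun_eq_card] at h2
  rw [Set.ncard_eq_toFinset_card', Set.toFinset_card, Nat.card_eq_fintype_card]
  exact h2

/-- subgroups of index `2 ^ j` of a finite `2`-group -/
theorem card_subgroups_index {G : Type} [Group G] [Finite G] (hG : IsPGroup 2 G) (j : ℕ) :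
    {H : Subgroup G | H.index = 2 ^ j}.ncard ≤ (Nat.card G) ^ j := by
  classical
  induction j with
  | zero =>
    have : {H : Subgroup G | H.index = 2 ^ 0} = {⊤} := by
      ext H
      simp [Subgroup.index_eq_one]
    rw [this]
    simp
  | succ j ih =>
    have : Fintype (Subgroup G) := Fintype.ofFinite _
    obtain ⟨N, hN⟩ := hG.exists_card_eq
    have hsub : {H : Subgroup G | H.index = 2 ^ (j + 1)} ⊆
        ⋃ K ∈ (Finset.univ.filter fun K : Subgroup G => K.index = 2 ^ j),
          ((fun H : Subgroup K => H.map K.subtype) '' {H : Subgroup K | H.index = 2}) := by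
      intro H hH
      simp only [Set.mem_setOf_eq] at hH
      -- card H
      have hcard := H.card_mul_index
      rw [hH, hN] at hcard
      obtain ⟨a, -, ha⟩ := (Nat.dvd_prime_pow Nat.prime_two).1 (Dvd.intro _ hcard)
      rw [ha, ← pow_add] at hcard
      have haN : a + (j + 1) = N := Nat.pow_right_injective le_rfl hcard
      have hdvd : 2 ^ (a + 1) ∣ Nat.card G := by
        rw [hN]
        exact pow_dvd_pow _ (by omega)
      obtain ⟨K, hK, hHK⟩ := Sylow.exists_subgroup_card_pow_succ hdvd ha
      have hKi : K.index = 2 ^ j := by
        have := K.card_mul_index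
        rw [hK, hN] at this
        have h3 : 2 ^ (a + 1) * K.index = 2 ^ (a + 1) * 2 ^ j := by
          rw [this, ← pow_add]
          congr 1
          omega
        exact Nat.eq_of_mul_eq_mul_left (by positivity) h3
      simp only [Set.mem_iUnion, Finset.mem_filter, Finset.mem_univ, true_and, Set.mem_image,
        Set.mem_setOf_eq]
      refine ⟨K, hKi, H.subgroupOf K, ?_, ?_⟩
      · change H.relIndex K = 2
        have h4 := Subgroup.relIndex_mul_index hHK
        rw [hKi, hH, pow_succ'] at h4
        exact Nat.eq_of_mul_eq_mul_right (by positivity) h4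
      · exact Subgroup.map_subgroupOf_eq_of_le hHK
    calc {H : Subgroup G | H.index = 2 ^ (j + 1)}.ncard 
        ≤ (⋃ K ∈ (Finset.univ.filter fun K : Subgroup G => K.index = 2 ^ j),
          ((fun H : Subgroup K => H.map K.subtype) '' {H : Subgroup K | H.index = 2})).ncard :=
          Set.ncard_le_ncard hsub (Set.toFinite _)
      _ ≤ ∑ K ∈ (Finset.univ.filter fun K : Subgroup G => K.index = 2 ^ j),
          ((fun H : Subgroup K => H.map K.subtype) '' {H : Subgroup K | H.index = 2}).ncard := 
          Finset.set_ncard_biUnion_le _ _
      _ ≤ ∑ K ∈ (Finset.univ.filter fun K : Subgroup G => K.index = 2 ^ j), Nat.card G := by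
          refine Finset.sum_le_sum fun K _ => ?_
          refine (Set.ncard_image_le (Set.toFinite _)).trans ?_
          refine h18_card_index_two.trans ?_
          exact Subgroup.card_le_card_group K
      _ = (Finset.univ.filter fun K : Subgroup G => K.index = 2 ^ j).card * Nat.card G := by
          simp
      _ ≤ Nat.card G ^ j * Nat.card G := by
          refine Nat.mul_le_mul_right _ ?_
          rw [← Set.ncard_coe_finset]
          simpa using! ih
      _ = Nat.card G ^ (j + 1) := by ring

end Pool.Agent.Lib.TG12
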