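import Pool.Agent.Lib.MP_12cf61_al.H18C1

namespace Pool.Agent.Lib.TG12

open Equiv Filter

section C2

variable {G : Type} [Group G] {N : ℕ}

/-- stabiliser of the point `0` in an action given by a homomorphism -/
def h18Stab [NeZero N] (φ : G →* Perm (Fin N)) : Subgroup G where
  carrier := {g | φ g 0 = 0}
  one_mem' := by simp
  mul_mem' := by
    intro a b ha hb
    simp only [Set.mem_ofPred_eq] at *
    rw [map_mul, Perm.mul_apply, hb, ha]
  inv_mem' := by
    intro a ha
    simp only [Set.mem_ofPred_eq] at *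
    rw [map_inv, Perm.inv_eq_iff_eq, ha]

theorem mem_h18Stab [NeZero N] (φ : G →* Perm (Fin N)) (g : G) : g ∈ h18Stab φ ↔ φ g 0 = 0 := Iff.rfl

/-- the orbit map as a bijection from the cosets of the stabiliser -/
noncomputable def h18Orb [NeZero N] (φ : G →* Perm (Fin N)) (hφ : ∀ x y, ∃ g, φ g x = y) :
    G ⧸ h18Stab φ ≃ Fin N :=
  Equiv.ofBijective (Quotient.lift (s := QuotientGroup.leftRel (h18Stab φ)) (fun g => φ g 0) (by
    intro a b hab
    have h1 := QuotientGroup.leftRel_apply.1 hab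
    rw [mem_h18Stab, map_mul, Perm.mul_apply, map_inv, Perm.inv_eq_iff_eq] at h1
    exact h1.symm)) (by
    constructor
    · intro a b
      induction a using QuotientGroup.induction_on with
      | H a =>
        induction b using QuotientGroup.induction_on with
        | H b =>
          intro h
          have h' : φ a 0 = φ b 0 := h
          rw [QuotientGroup.eq, mem_h18Stab, map_mul, Perm.mul_apply, map_inv, Perm.inv_eq_iff_eq]
          exact h'.symm
    · intro y
      obtain ⟨g, hg⟩ := hφ 0 y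
      exact ⟨(g : G ⧸ h18Stab φ), hg⟩)

theorem h18Orb_mk [NeZero N] (φ : G →* Perm (Fin N)) (hφ : ∀ x y, ∃ g, φ g x = y) (g : G) :
    h18Orb φ hφ (g : G ⧸ h18Stab φ) = φ g 0 := rfl

theorem h18Stab_index [NeZero N] (φ : G →* Perm (Fin N)) (hφ : ∀ x y, ∃ g, φ g x = y) :
    (h18Stab φ).index = N := by
  rw [Subgroup.index, Nat.card_congr (h18Orb φ hφ), Nat.card_eq_fintype_card, Fintype.card_fin]

end C2

/-- transitive actions of a finite `2`-group on `2 ^ n` points -/
theorem card_trans_homs {G : Type} [Group G] [Finite G] (hG : IsPGroup 2 G) (n : ℕ) :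
    {φ : G →* Perm (Fin (2 ^ n)) | ∀ x y, ∃ g, φ g x = y}.ncard ≤ 
      (Nat.card G) ^ n * (2 ^ n).factorial := by
  classical
  let T := {φ : G →* Perm (Fin (2 ^ n)) | ∀ x y, ∃ g, φ g x = y}
  let S := {H : Subgroup G | H.index = 2 ^ n}
  have he : ∀ H : S, Nonempty ((G ⧸ H.1) ≃ Fin (2 ^ n)) := by
    intro H
    have h1 : Nat.card (G ⧸ H.1) = 2 ^ n := H.2
    exact ⟨(Finite.equivFin _).trans (finCongr h1)⟩
  let e : ∀ H : S, (G ⧸ H.1) ≃ Fin (2 ^ n) := fun H => Classical.choice (he H)
  let F : T → S × Perm (Fin (2 ^ n)) := fun φ =>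
    (⟨h18Stab φ.1, h18Stab_index φ.1 φ.2⟩, 
      (e ⟨h18Stab φ.1, h18Stab_index φ.1 φ.2⟩).symm.trans (h18Orb φ.1 φ.2))
  have hF : Function.Injective F := by
    rintro ⟨φ, hφ⟩ ⟨ψ, hψ⟩ h
    simp only [F, Prod.mk.injEq] at h
    obtain ⟨h1, h2⟩ := h
    have h1' : h18Stab φ = h18Stab ψ := congrArg Subtype.val h1
    -- key : the orbit maps agree on cosets
    have key : ∀ g : G, φ g 0 = ψ g 0 := by
      intro g
      have h3 : ∀ (H : S) (hH : H = ⟨h18Stab φ, h18Stab_index φ hφ⟩) (hH' : H = ⟨h18Stab ψ, h18Stab_index ψ hψ⟩),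
          h18Orb φ hφ ((g : G) : G ⧸ h18Stab φ) = h18Orb ψ hψ ((g : G) : G ⧸ h18Stab ψ) := by
        intro H hH hH'
        have h4 := DFunLike.congr_fun h2 (e H ((g : G) : G ⧸ H.1))
        have h5 : (e ⟨h18Stab φ, h18Stab_index φ hφ⟩).symm (e H ((g : G) : G ⧸ H.1)) = 
            ((g : G) : G ⧸ h18Stab φ) := by
          subst hH
          simp
        have h6 : (e ⟨h18Stab ψ, h18Stab_index ψ hψ⟩).symm (e H ((g : G) : G ⧸ H.1)) = 
            ((g : G) : G ⧸ h18Stab ψ) := by
          subst hH'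
          simp
        rw [Equiv.trans_apply, Equiv.trans_apply, h5, h6] at h4
        exact h4
      exact h3 _ rfl h1
    apply Subtype.ext
    refine MonoidHom.ext fun g => Equiv.ext fun x => ?_
    obtain ⟨k, hk⟩ := hφ 0 x
    have hk' : ψ k 0 = x := by rw [← key, hk]
    have := key (g * k)
    rw [map_mul, map_mul, Perm.mul_apply, Perm.mul_apply, hk, hk'] at this
    exact this
  have h1 := Nat.card_le_card_of_injective F hF
  rw [Nat.card_prod, Nat.card_coe_set_eq, Nat.card_coe_set_eq, Nat.card_eq_fintype_card,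
    Fintype.card_perm, Fintype.card_fin] at h1
  exact h1.trans (Nat.mul_le_mul_right _ (card_subgroups_index hG n))

end Pool.Agent.Lib.TG12
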