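/-
A transitive `2`-group of degree `m` and order larger than `2 ^ (m / 2)` has exponential growth.
-/
import Pool.Agent.Lib.MP_12cf61_al.Half
import Pool.Agent.Lib.MP_12cf61_al.H18Half

namespace Pool.Agent.Lib.TG12

open Equiv Filter

theorem card_two_group_le {Y : Type} [Finite Y] [Nonempty Y] (R : Subgroup (Perm Y))
    (hR : IsPGroup 2 R) : 2 * Nat.card R ≤ 2 ^ Nat.card Y := by
  classical
  have := Fintype.ofFinite Y
  obtain ⟨m, hm⟩ := IsPGroup.iff_card.1 hR
  have h1 : Nat.card R ∣ (Nat.card Y).factorial := by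
    have := Subgroup.card_subgroup_dvd_card R
    rwa [Nat.card_eq_fintype_card (α := Perm Y), Fintype.card_perm, ← Nat.card_eq_fintype_card]
      at this
  rw [hm] at h1 ⊢
  have h2 : Nat.card Y ≠ 0 := Nat.card_pos.ne'
  have h3 := Nat.emultiplicity_two_factorial_lt h2
  have h4 : (m : ℕ∞) ≤ emultiplicity 2 (Nat.card Y).factorial := le_emultiplicity_of_pow_dvd h1
  have h5 : m < Nat.card Y := by exact_mod_cast lt_of_le_of_lt h4 h3
  calc 2 * 2 ^ m = 2 ^ (m + 1) := by ring
    _ ≤ 2 ^ Nat.card Y := Nat.pow_le_pow_right (by norm_num) h5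

theorem large_order (k : ℕ) (L : Subgroup (Perm (Fin (2 ^ (k + 1)))))
    (hL : L ∈ T2 (Fin (2 ^ (k + 1)))) (h : 2 ^ (2 ^ k) < Nat.card L) : HasExpGrowth L := by
  classical
  by_contra hbad
  obtain ⟨B, hB, hBc, hblk⟩ := exists_half L hL
  have hBne : B.Nonempty := by
    rw [← Set.ncard_pos (Set.toFinite _), hB]; positivity
  have hBcne : Bᶜ.Nonempty := by
    rw [← Set.ncard_pos (Set.toFinite _), hBc]; positivity
  have hfaith : ∀ g ∈ L, (∀ x, x ∉ B → g x = x) → g = 1 := by
    intro g hg hgx
    by_contra hg1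
    exact hbad (expGrowth_of_half L hL.1 B hBne hBcne hblk g hg hg1 hgx)
  -- the stabiliser of `B`
  have hpres : ∀ g : Perm (Fin (2 ^ (k + 1))), g '' B = B → ∀ x, g x ∈ Bᶜ ↔ x ∈ Bᶜ := by
    intro g hg x
    rw [Set.mem_compl_iff, Set.mem_compl_iff, not_iff_not]
    constructor
    · intro h
      rw [← hg] at h
      obtain ⟨y, hy, hxy⟩ := h
      rw [← g.injective hxy]; exact hy
    · intro h
      rw [← hg]; exact ⟨x, h, rfl⟩
  let R : Subgroup L :=
    { carrier := {g | (g : Perm (Fin (2 ^ (k + 1)))) '' B = B}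
      one_mem' := by simp
      mul_mem' := by
        intro a b ha hb
        change ((a : Perm _) * (b : Perm _) : Perm _) '' B = B
        rw [Perm.coe_mul, Set.image_comp]
        have hb' : (b : Perm (Fin (2 ^ (k + 1)))) '' B = B := hb
        have ha' : (a : Perm (Fin (2 ^ (k + 1)))) '' B = B := ha
        rw [hb', ha']
      inv_mem' := by
        intro a ha
        have ha' : (a : Perm (Fin (2 ^ (k + 1)))) '' B = B := ha
        change ((a : Perm (Fin (2 ^ (k + 1))))⁻¹ : Perm _) '' B = B
        conv_lhs => rw [← ha', ← Set.image_comp]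
        ext x
        simp }
  let f : R →* Perm (Bᶜ : Set (Fin (2 ^ (k + 1)))) :=
    { toFun := fun g => (g.1.1).subtypePerm (hpres g.1.1 g.2)
      map_one' := by ext x; simp
      map_mul' := by
        intro a b
        ext x
        rfl }
  have hf : Function.Injective f := by
    rw [injective_iff_map_eq_one]
    intro g hg
    apply Subtype.ext
    apply Subtype.ext
    apply hfaith g.1.1 g.1.2
    intro x hx
    have h1 := congrArg (fun p : Perm (Bᶜ : Set (Fin (2 ^ (k + 1)))) => ((p ⟨x, hx⟩ : (Bᶜ : Set _)) : Fin (2 ^ (k + 1)))) hg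
    simpa [f] using h1
  have hR2 : IsPGroup 2 R := hL.2.to_subgroup R
  have hne : Nonempty (Bᶜ : Set (Fin (2 ^ (k + 1)))) := hBcne.to_subtype
  have h1 : 2 * Nat.card f.range ≤ 2 ^ (2 ^ k) := by
    have h2 : IsPGroup 2 f.range := by
      rw [MonoidHom.range_eq_map]
      exact (hR2.to_subgroup ⊤).map f
    have h3 := card_two_group_le f.range h2
    rwa [Nat.card_coe_set_eq, hBc] at h3
  have h2 : Nat.card R = Nat.card f.range := by
    exact Nat.card_congr (MonoidHom.ofInjective hf).toEquiv
  have h3 : Nat.card L ≤ 2 * Nat.card R := by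
    have h4 : R.index ≤ 2 := by
      by_cases hex : ∃ t : L, t ∉ R
      · obtain ⟨t, ht⟩ := hex
        have himg : ∀ g : L, g ∉ R → (g : Perm (Fin (2 ^ (k + 1)))) '' B = Bᶜ := by
          intro g hg
          rcases hblk g.1 g.2 with h | h
          · exact absurd h hg
          · exact h
        have h5 : R.index = 2 := by
          rw [Subgroup.index_eq_two_iff_exists_notMem_and]
          refine ⟨t, ht, fun b => ?_⟩
          by_cases hb : b ∈ R
          · exact Or.inr hb
          · left
            change ((b : Perm _) * (t : Perm _) : Perm _) '' B = B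
            rw [Perm.coe_mul, Set.image_comp, himg t ht, Set.image_compl_eq b.1.bijective,
              himg b hb, compl_compl]
        omega
      · push Not at hex
        have h5 : R = ⊤ := by
          rw [Subgroup.eq_top_iff']
          exact hex
        rw [h5, Subgroup.index_top]
        norm_num
    calc Nat.card L = Nat.card R * R.index := (Subgroup.card_mul_index R).symm
      _ ≤ Nat.card R * 2 := Nat.mul_le_mul_left _ h4
      _ = 2 * Nat.card R := mul_comm _ _
  omega

end Pool.Agent.Lib.TG12
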